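import Mathlib

set_option autoImplicit false

/-!
Torsion-free barely transitive groups: the centraliser of every derived subgroup of a subgroup
containing a finite-index subgroup of a point stabiliser is trivial.
-/

namespace Pool.Agent.H98.BT

open Subgroup
open scoped commutatorElement

variable {G : Type*} [Group G]

/-- the `n`-th derived subgroup of `T`, as a subgroup of `G` -/
def D : ℕ → Subgroup G → Subgroup G
  | 0, T => T
  | n + 1, T => ⁅D n T, D n T⁆

lemma D_zero (T : Subgroup G) : D 0 T = T := rfl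

lemma D_succ (n : ℕ) (T : Subgroup G) : D (n + 1) T = ⁅D n T, D n T⁆ := rfl

lemma D_mono (n : ℕ) {S T : Subgroup G} (h : S ≤ T) : D n S ≤ D n T := by
  induction n with
  | zero => exact h
  | succ n ih => exact commutator_mono ih ih

lemma D_succ_le (n : ℕ) (T : Subgroup G) : D (n + 1) T ≤ D n T := by
  rw [D_succ, commutator_le]
  intro a ha b hb
  rw [commutatorElement_def]
  exact mul_mem (mul_mem (mul_mem ha hb) (inv_mem ha)) (inv_mem hb)

lemma D_anti (T : Subgroup G) {m n : ℕ} (h : m ≤ n) : D n T ≤ D m T := by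
  induction n, h using Nat.le_induction with
  | base => exact le_rfl
  | succ n _ ih => exact (D_succ_le n T).trans ih

lemma D_le (n : ℕ) (T : Subgroup G) : D n T ≤ T := D_anti T (Nat.zero_le n)

lemma D_map (n : ℕ) (T : Subgroup G) (f : G →* G) : (D n T).map f = D n (T.map f) := by
  induction n with
  | zero => rfl
  | succ n ih => rw [D_succ, map_commutator, ih, D_succ]

lemma conj_mem_D (n : ℕ) {T : Subgroup G} {t d : G} (ht : ∀ x ∈ T, t * x * t⁻¹ ∈ T)
    (hd : d ∈ D n T) : t * d * t⁻¹ ∈ D n T := by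
  have h1 : T.map (MulAut.conj t).toMonoidHom ≤ T := by
    rintro _ ⟨x, hx, rfl⟩
    exact ht x hx
  have h2 := mem_map_of_mem (MulAut.conj t).toMonoidHom hd
  rw [D_map] at h2
  exact D_mono n h1 h2

lemma derived_map (T : Subgroup G) (n : ℕ) : (derivedSeries T n).map T.subtype = D n T := by
  induction n with
  | zero => rw [derivedSeries_zero, D_zero, ← MonoidHom.range_eq_map, range_subtype]
  | succ n ih => rw [derivedSeries_succ, map_commutator, ih, D_succ]

/-- the abstract situation -/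
structure Hyp (H : Subgroup G) : Prop where
  prop : ∀ K : Subgroup G, K ≠ ⊤ → H.relIndex K ≠ 0
  conj : ∀ g : G, (H.map (MulAut.conj g).toMonoidHom).relIndex H ≠ 0
  simple : ∀ N : Subgroup G, N.Normal → N = ⊥ ∨ N = ⊤
  tf : ∀ (g : G) (n : ℕ), 0 < n → g ^ n = 1 → g = 1
  nonab : ∃ a b : G, a * b ≠ b * a
  ne : ∀ T : Subgroup G, T.relIndex H ≠ 0 → T ≠ ⊥

/-- elements centralising the `n`-th derived subgroup of some subgroup which contains a subgroup
of finite index of `H` -/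
def X (H : Subgroup G) (n : ℕ) : Subgroup G where
  carrier := {g | ∃ T : Subgroup G, T.relIndex H ≠ 0 ∧ ∀ d ∈ D n T, d * g = g * d}
  one_mem' := ⟨⊤, by rw [relIndex_top_left]; exact one_ne_zero, fun d _ => by simp⟩
  mul_mem' := by
    rintro a b ⟨T, hT, ha⟩ ⟨S, hS, hb⟩
    refine ⟨T ⊓ S, relIndex_inf_ne_zero hT hS, fun d hd => ?_⟩
    rw [← mul_assoc, ha d (D_mono n inf_le_left hd), mul_assoc, hb d (D_mono n inf_le_right hd),
      mul_assoc]
  inv_mem' := by
    rintro a ⟨T, hT, ha⟩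
    refine ⟨T, hT, fun d hd => ?_⟩
    rw [mul_inv_eq_iff_eq_mul, mul_assoc, ha d hd, inv_mul_cancel_left]

lemma mem_X {H : Subgroup G} {n : ℕ} {g : G} :
    g ∈ X H n ↔ ∃ T : Subgroup G, T.relIndex H ≠ 0 ∧ ∀ d ∈ D n T, d * g = g * d := Iff.rfl

variable {H : Subgroup G}

lemma X_normal (h : Hyp H) (n : ℕ) : (X H n).Normal := by
  constructor
  rintro a ⟨T, hT, ha⟩ g
  refine ⟨T.map (MulAut.conj g).toMonoidHom, ?_, ?_⟩
  · refine relIndex_ne_zero_trans (K := H.map (MulAut.conj g).toMonoidHom) ?_ (h.conj g)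
    rw [relIndex_map_map_of_injective _ _ (MulAut.conj g).injective]
    exact hT
  · intro d hd
    rw [← D_map] at hd
    obtain ⟨e, he, rfl⟩ := hd
    have := ha e he
    simp only [MulEquiv.coe_toMonoidHom, MulAut.conj_apply]
    calc g * e * g⁻¹ * (g * a * g⁻¹) = g * (e * a) * g⁻¹ := by group
      _ = g * (a * e) * g⁻¹ := by rw [this]
      _ = g * a * g⁻¹ * (g * e * g⁻¹) := by group

lemma X_dich (h : Hyp H) (n : ℕ) : X H n = ⊥ ∨ X H n = ⊤ := h.simple _ (X_normal h n)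

lemma center_bot (h : Hyp H) : center G = ⊥ := by
  rcases h.simple (center G) inferInstance with hc | hc
  · exact hc
  · exfalso
    obtain ⟨a, b, hab⟩ := h.nonab
    have : b ∈ center G := by rw [hc]; exact mem_top b
    exact hab (mem_center_iff.1 this a)

/-- two elements centralised by an open subgroup commute -/
lemma comm_of_central (h : Hyp H) {T : Subgroup G} (hT : T.relIndex H ≠ 0) {a b : G}
    (ha : ∀ t ∈ T, t * a = a * t) (hb : ∀ t ∈ T, t * b = b * t) : a * b = b * a := by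
  let K := closure ({a, b} : Set G)
  have haK : a ∈ K := subset_closure (by simp)
  have hbK : b ∈ K := subset_closure (by simp)
  have hcent : ∀ t ∈ T, ∀ k ∈ K, t * k = k * t := by
    intro t ht k hk
    have hle : K ≤ centralizer {t} := by
      refine (closure_le _).2 ?_
      rintro x hx
      rw [SetLike.mem_coe, mem_centralizer_singleton_iff]
      rcases hx with rfl | hx
      · exact (ha t ht).symm
      · rw [Set.mem_singleton_iff] at hx
        subst hx
        exact (hb t ht).symm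
    exact (mem_centralizer_singleton_iff.1 (hle hk)).symm
  by_cases hK : K = ⊤
  · exfalso
    have hTc : T ≤ center G := by
      intro t ht
      rw [mem_center_iff]
      intro g
      exact (hcent t ht g (by rw [hK]; exact mem_top g)).symm
    rw [center_bot h, le_bot_iff] at hTc
    exact h.ne T hT hTc
  · have hTK : T.relIndex K ≠ 0 := relIndex_ne_zero_trans hT (h.prop K hK)
    have hle : T.subgroupOf K ≤ center K := by
      intro t ht
      rw [mem_center_iff]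
      intro g
      apply Subtype.ext
      exact (hcent t (mem_subgroupOf.1 ht) g g.2).symm
    have hfin : (center K).index ≠ 0 := by
      intro h0
      have := index_dvd_of_le hle
      rw [h0, zero_dvd_iff] at this
      exact hTK this
    have : FiniteIndex (center K) := ⟨hfin⟩
    let x : K := ⟨a, haK⟩
    let y : K := ⟨b, hbK⟩
    let τ := MonoidHom.transferCenterPow K
    have hc : τ x * τ y = τ y * τ x := Subtype.ext (mem_center_iff.1 (τ y).2 (τ x : K))
    have h1 : τ (x * y * x⁻¹ * y⁻¹) = 1 := by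
      rw [map_mul, map_mul, map_mul, map_inv, map_inv, hc, mul_assoc (τ y), mul_inv_cancel,
        mul_one, mul_inv_cancel]
    have h2 : (x * y * x⁻¹ * y⁻¹) ^ (center K).index = 1 := by
      have := congrArg (fun z : center K => (z : K)) h1
      simpa only [τ, MonoidHom.transferCenterPow_apply, OneMemClass.coe_one] using this
    have h3 : (a * b * a⁻¹ * b⁻¹) ^ (center K).index = 1 := by
      have := congrArg (fun z : K => (z : G)) h2
      simpa using this
    have h4 := h.tf _ _ (Nat.pos_of_ne_zero hfin) h3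
    rw [mul_inv_eq_one, mul_inv_eq_iff_eq_mul] at h4
    exact h4

lemma X_zero (h : Hyp H) : X H 0 = ⊥ := by
  rcases X_dich h 0 with h0 | h0
  · exact h0
  · exfalso
    obtain ⟨a, b, hab⟩ := h.nonab
    have ha : a ∈ X H 0 := by rw [h0]; exact mem_top a
    have hb : b ∈ X H 0 := by rw [h0]; exact mem_top b
    obtain ⟨T, hT, hTa⟩ := ha
    obtain ⟨S, hS, hSb⟩ := hb
    exact hab (comm_of_central h (relIndex_inf_ne_zero hT hS) (fun t ht => hTa t ht.1)
      (fun t ht => hSb t ht.2))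

/-- the main step -/
lemma key (h : Hyp H) (i : ℕ) (hi : X H i = ⊥) (hs : X H (i + 1) = ⊤) (A S : Subgroup G)
    (hS : S.relIndex H ≠ 0) (hab : ∀ a ∈ A, ∀ b ∈ A, a * b = b * a)
    (hn : ∀ s ∈ S, ∀ a ∈ A, s * a * s⁻¹ ∈ A) : A = ⊥ := by
  by_contra hA
  obtain ⟨a, haA, ha1⟩ : ∃ a ∈ A, a ≠ 1 := by
    by_contra hcon
    push Not at hcon
    exact hA ((eq_bot_iff_forall A).2 hcon)
  have hAtop : A ≠ ⊤ := by
    rintro rfl
    obtain ⟨x, y, hxy⟩ := h.nonab
    exact hxy (hab x (mem_top _) y (mem_top _))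
  have haX : a ∈ X H (i + 1) := by rw [hs]; exact mem_top a
  obtain ⟨T0, hT0, hcomm⟩ := haX
  let T1 := T0 ⊓ S
  have hT1 : T1.relIndex H ≠ 0 := relIndex_inf_ne_zero hT0 hS
  have hT1S : T1 ≤ S := inf_le_right
  let V : G → Prop := fun v => v ∈ A ∧ ∀ d ∈ D (i + 1) T1, d * v = v * d
  have hVa : V a := ⟨haA, fun d hd => hcomm d (D_mono _ inf_le_left hd)⟩
  let δ : G → G → G := fun q v => q * v * q⁻¹ * v⁻¹
  have conjV : ∀ t ∈ T1, ∀ v, V v → V (t * v * t⁻¹) := by
    intro t ht v hv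
    refine ⟨hn t (hT1S ht) v hv.1, fun d hd => ?_⟩
    have hd' : t⁻¹ * d * t⁻¹⁻¹ ∈ D (i + 1) T1 :=
      conj_mem_D (i + 1) (fun x hx => mul_mem (mul_mem (inv_mem ht) hx) (inv_mem (inv_mem ht))) hd
    have h1 := hv.2 _ hd'
    rw [inv_inv] at h1
    calc d * (t * v * t⁻¹) = t * ((t⁻¹ * d * t) * v) * t⁻¹ := by group
      _ = t * (v * (t⁻¹ * d * t)) * t⁻¹ := by rw [h1]
      _ = t * v * t⁻¹ * d := by group
  have mulV : ∀ v w, V v → V w → V (v * w⁻¹) := by
    intro v w hv hw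
    refine ⟨mul_mem hv.1 (inv_mem hw.1), fun d hd => ?_⟩
    have h1 := hv.2 d hd
    have h2 := hw.2 d hd
    have h3 : d * w⁻¹ = w⁻¹ * d := by
      rw [mul_inv_eq_iff_eq_mul, mul_assoc, h2, inv_mul_cancel_left]
    rw [← mul_assoc, h1, mul_assoc, h3, mul_assoc]
  have δV : ∀ t ∈ T1, ∀ v, V v → V (δ t v) := fun t ht v hv => mulV _ _ (conjV t ht v hv) hv
  have δmul : ∀ t ∈ S, ∀ v ∈ A, ∀ w ∈ A, δ t (v * w) = δ t v * δ t w := by
    intro t ht v hv w hw
    have h1 := hn t ht v hv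
    have h2 := hn t ht w hw
    have h3 : v⁻¹ * (t * w * t⁻¹) = (t * w * t⁻¹) * v⁻¹ := hab _ (inv_mem hv) _ h2
    have h4 : v⁻¹ * w⁻¹ = w⁻¹ * v⁻¹ := hab _ (inv_mem hv) _ (inv_mem hw)
    show t * (v * w) * t⁻¹ * (v * w)⁻¹ = t * v * t⁻¹ * v⁻¹ * (t * w * t⁻¹ * w⁻¹)
    calc t * (v * w) * t⁻¹ * (v * w)⁻¹ = (t * v * t⁻¹) * ((t * w * t⁻¹) * (w⁻¹ * v⁻¹)) := by group
      _ = (t * v * t⁻¹) * ((t * w * t⁻¹) * (v⁻¹ * w⁻¹)) := by rw [h4]
      _ = (t * v * t⁻¹) * (((t * w * t⁻¹) * v⁻¹) * w⁻¹) := by group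
      _ = (t * v * t⁻¹) * ((v⁻¹ * (t * w * t⁻¹)) * w⁻¹) := by rw [h3]
      _ = t * v * t⁻¹ * v⁻¹ * (t * w * t⁻¹ * w⁻¹) := by group
  have δpow : ∀ t ∈ S, ∀ v ∈ A, ∀ e : ℕ, δ t (v ^ e) = (δ t v) ^ e := by
    intro t ht v hv e
    induction e with
    | zero => simp [δ]
    | succ e ih => rw [pow_succ, δmul t ht _ (pow_mem hv e) _ hv, ih, pow_succ]
  have δcomm : ∀ q ∈ D i T1, ∀ y ∈ D i T1, ∀ v, V v → δ q (δ y v) = δ y (δ q v) := by
    intro q hq y hy v hv
    have hqT : q ∈ T1 := D_le i T1 hq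
    have hyT : y ∈ T1 := D_le i T1 hy
    have hc : ⁅q⁻¹, y⁻¹⁆ ∈ D (i + 1) T1 := by
      rw [D_succ]
      exact commutator_mem_commutator (inv_mem hq) (inv_mem hy)
    have h1 := hv.2 _ hc
    rw [commutatorElement_def, inv_inv, inv_inv] at h1
    -- `(q⁻¹ y⁻¹ q y) v = v (q⁻¹ y⁻¹ q y)`
    have h2 : q * (y * v * y⁻¹) * q⁻¹ = y * (q * v * q⁻¹) * y⁻¹ := by
      have h5 : v * (q⁻¹ * y⁻¹ * q * y) * v⁻¹ = q⁻¹ * y⁻¹ * q * y := by
        rw [← h1]; group
      calc q * (y * v * y⁻¹) * q⁻¹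
          = y * q * ((q⁻¹ * y⁻¹ * q * y) * v) * y⁻¹ * q⁻¹ := by group
        _ = y * q * (v * (q⁻¹ * y⁻¹ * q * y)) * y⁻¹ * q⁻¹ := by rw [h1]
        _ = y * (q * v * q⁻¹) * y⁻¹ := by group
    have hβ : q * v * q⁻¹ ∈ A := (conjV q hqT v hv).1
    have hγ : y * v * y⁻¹ ∈ A := (conjV y hyT v hv).1
    have hα : q * (y * v * y⁻¹) * q⁻¹ ∈ A := (conjV q hqT _ (conjV y hyT v hv)).1
    show q * (y * v * y⁻¹ * v⁻¹) * q⁻¹ * (y * v * y⁻¹ * v⁻¹)⁻¹
      = y * (q * v * q⁻¹ * v⁻¹) * y⁻¹ * (q * v * q⁻¹ * v⁻¹)⁻¹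
    have e1 : q * (y * v * y⁻¹ * v⁻¹) * q⁻¹ * (y * v * y⁻¹ * v⁻¹)⁻¹
        = (q * (y * v * y⁻¹) * q⁻¹) * ((q * v * q⁻¹)⁻¹ * (v * (y * v * y⁻¹)⁻¹)) := by group
    have e2 : y * (q * v * q⁻¹ * v⁻¹) * y⁻¹ * (q * v * q⁻¹ * v⁻¹)⁻¹
        = (y * (q * v * q⁻¹) * y⁻¹) * ((y * v * y⁻¹)⁻¹ * (v * (q * v * q⁻¹)⁻¹)) := by group
    rw [e1, e2, h2]
    congr 1
    have c1 := hab _ (inv_mem hβ) _ (mul_mem hv.1 (inv_mem hγ))
    have c2 := hab _ (inv_mem hγ) _ hv.1
    rw [c1, ← mul_assoc, c2]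
  have main : ∀ y ∈ D i T1, ∀ v, V v → δ y v = 1 := by
    intro y hy
    have hyX : y ∈ X H (i + 1) := by rw [hs]; exact mem_top y
    obtain ⟨T2', hT2', hyc⟩ := hyX
    let T2 := T2' ⊓ T1
    have hT2 : T2.relIndex H ≠ 0 := relIndex_inf_ne_zero hT2' hT1
    have hT21 : T2 ≤ T1 := inf_le_right
    let N : ℕ → G → Prop := fun m w => V w ∧ ∃ e : ℕ, 0 < e ∧ w ^ e ∈ D m T2
    have N0 : ∀ v, V v → N 0 v := by
      intro v hv
      refine ⟨hv, ?_⟩
      have h1 : T2.relIndex A ≠ 0 := relIndex_ne_zero_trans hT2 (h.prop A hAtop)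
      obtain ⟨e, he, -, hm⟩ := exists_pow_mem_of_relIndex_ne_zero h1 hv.1
      exact ⟨e, he, hm.1⟩
    have Nstep : ∀ m, m ≤ i → ∀ w, N m w → ∀ q ∈ D i T2, N (m + 1) (δ q w) := by
      rintro m hm w ⟨hw, e, he, hwe⟩ q hq
      have hqT2 : q ∈ T2 := D_le i T2 hq
      refine ⟨δV q (hT21 hqT2) w hw, e, he, ?_⟩
      rw [← δpow q (hT1S (hT21 hqT2)) w hw.1 e, D_succ]
      exact commutator_mem_commutator (D_anti T2 hm hq) hwe
    have Ntop : ∀ w, N (i + 1) w → δ y w = 1 := by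
      rintro w ⟨hw, e, he, hwe⟩
      have h1 : w ^ e * y = y * w ^ e := hyc _ (D_mono _ inf_le_left hwe)
      have h2 : δ y (w ^ e) = 1 := by
        show y * w ^ e * y⁻¹ * (w ^ e)⁻¹ = 1
        rw [← h1]; group
      rw [δpow y (hT1S (D_le i T1 hy)) w hw.1 e] at h2
      exact h.tf _ _ he h2
    have down : ∀ k, k ≤ i + 1 → ∀ w, N (i + 1 - k) w → δ y w = 1 := by
      intro k
      induction k with
      | zero => intro _ w hw; exact Ntop w hw
      | succ k ih =>
        intro hk w hw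
        have hm : i + 1 - (k + 1) ≤ i := by omega
        have hm1 : i + 1 - (k + 1) + 1 = i + 1 - k := by omega
        have hu : δ y w ∈ X H i := by
          refine ⟨T2, hT2, fun q hq => ?_⟩
          have h1 : N (i + 1 - k) (δ q w) := by
            rw [← hm1]; exact Nstep _ hm w hw q hq
          have h2 := ih (by omega) _ h1
          rw [← δcomm q (D_mono i hT21 hq) y hy w hw.1] at h2
          have h3 : q * (δ y w) * q⁻¹ * (δ y w)⁻¹ = 1 := h2
          rw [mul_inv_eq_one, mul_inv_eq_iff_eq_mul] at h3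
          exact h3
        rw [hi] at hu
        exact mem_bot.1 hu
    intro v hv
    refine down (i + 1) le_rfl v ?_
    rw [Nat.sub_self]
    exact N0 v hv
  have haXi : a ∈ X H i := by
    refine ⟨T1, hT1, fun d hd => ?_⟩
    have h3 : d * a * d⁻¹ * a⁻¹ = 1 := main d hd a hVa
    rw [mul_inv_eq_one, mul_inv_eq_iff_eq_mul] at h3
    exact h3
  rw [hi] at haXi
  exact ha1 (mem_bot.1 haXi)

/-- if some `X H (i+1)` is everything, there is a nontrivial abelian subgroup normalised by an open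
subgroup -/
lemma exists_abelian (h : Hyp H) (n : ℕ) (hs : X H n = ⊤) : ∃ A S : Subgroup G,
    S.relIndex H ≠ 0 ∧ (∀ a ∈ A, ∀ b ∈ A, a * b = b * a) ∧
    (∀ s ∈ S, ∀ a ∈ A, s * a * s⁻¹ ∈ A) ∧ A ≠ ⊥ := by
  obtain ⟨x, y, hxy⟩ := h.nonab
  have hx1 : x ≠ 1 := by rintro rfl; exact hxy (by simp)
  have hx : x ∈ X H n := by rw [hs]; exact mem_top x
  obtain ⟨T, hT, hTx⟩ := hx
  let C0 : Subgroup G := centralizer (D n T : Set G)
  let C : Subgroup G := C0 ⊓ T
  have hC0 : ∀ c ∈ C0, ∀ d ∈ D n T, d * c = c * d := by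
    intro c hc d hd
    exact mem_centralizer_iff.1 hc d hd
  have hCne : C ≠ ⊥ := by
    by_cases hC : C0 = ⊤
    · intro hb
      have : T = ⊥ := by
        have h1 : C = T := by show C0 ⊓ T = T; rw [hC, top_inf_eq]
        rw [← h1]; exact hb
      exact h.ne T hT this
    · intro hb
      have h1 : T.relIndex C0 ≠ 0 := relIndex_ne_zero_trans hT (h.prop C0 hC)
      have hxC : x ∈ C0 := mem_centralizer_iff.2 (fun d hd => hTx d hd)
      obtain ⟨e, he, -, hm⟩ := exists_pow_mem_of_relIndex_ne_zero h1 hxC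
      have h2 : x ^ e ∈ C := ⟨hm.2, hm.1⟩
      rw [hb, mem_bot] at h2
      exact hx1 (h.tf _ _ he h2)
  have hCn : ∀ s ∈ T, ∀ c ∈ C, s * c * s⁻¹ ∈ C := by
    intro s hs' c hc
    have hsc : s * c * s⁻¹ ∈ T := T.mul_mem (T.mul_mem hs' hc.2) (T.inv_mem hs')
    refine ⟨mem_centralizer_iff.2 fun d hd => ?_, hsc⟩
    have hd' : s⁻¹ * d * s⁻¹⁻¹ ∈ D n T :=
      conj_mem_D n (fun x hx => mul_mem (mul_mem (inv_mem hs') hx) (inv_mem (inv_mem hs'))) hd
    have h1 := hC0 c hc.1 _ hd'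
    rw [inv_inv] at h1
    calc d * (s * c * s⁻¹) = s * ((s⁻¹ * d * s) * c) * s⁻¹ := by group
      _ = s * (c * (s⁻¹ * d * s)) * s⁻¹ := by rw [h1]
      _ = s * c * s⁻¹ * d := by group
  have hCsol : D (n + 1) C = ⊥ := by
    rw [D_succ, eq_bot_iff, commutator_le]
    intro a ha b hb
    have h1 : b ∈ D n T := D_mono n inf_le_right hb
    have h2 : a ∈ C0 := (D_le n C ha).1
    rw [mem_bot, commutatorElement_def, mul_inv_eq_one, mul_inv_eq_iff_eq_mul]
    exact (hC0 a h2 b h1).symm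
  classical
  have hex : ∃ k, D k C = ⊥ := ⟨n + 1, hCsol⟩
  let k := Nat.find hex
  have hk : D k C = ⊥ := Nat.find_spec hex
  have hk0 : k ≠ 0 := by
    intro h0
    rw [h0, D_zero] at hk
    exact hCne hk
  obtain ⟨m, hm⟩ := Nat.exists_eq_succ_of_ne_zero hk0
  refine ⟨D m C, T, hT, ?_, ?_, ?_⟩
  · intro a ha b hb
    have h1 : ⁅a, b⁆ ∈ D (m + 1) C := by
      rw [D_succ]; exact commutator_mem_commutator ha hb
    rw [← Nat.succ_eq_add_one, ← hm, hk, mem_bot, commutatorElement_def, mul_inv_eq_one,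
      mul_inv_eq_iff_eq_mul] at h1
    exact h1
  · intro s hs' a ha
    exact conj_mem_D m (hCn s hs') ha
  · exact Nat.find_min hex (show m < k by omega)

theorem X_bot (h : Hyp H) (n : ℕ) : X H n = ⊥ := by
  induction n with
  | zero => exact X_zero h
  | succ i ih =>
    rcases X_dich h (i + 1) with h1 | h1
    · exact h1
    · exfalso
      obtain ⟨A, S, hS, hab, hn, hne⟩ := exists_abelian h (i + 1) h1
      exact hne (key h i ih h1 A S hS hab hn)

section Action

open MulAction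

universe u v

variable {G : Type u} {Ω : Type v} [Group G] [MulAction G Ω]

lemma tf_pow (htf : ∀ g : G, IsOfFinOrder g → g = 1) (g : G) (n : ℕ) (hn : 0 < n)
    (h : g ^ n = 1) : g = 1 :=
  htf g (isOfFinOrder_iff_pow_eq_one.2 ⟨n, hn, h⟩)

lemma relIndex_stab (K : Subgroup G) (y : Ω) (h : (orbit K y).Finite) :
    (stabilizer G y).relIndex K ≠ 0 := by
  have h1 : (stabilizer G y).subgroupOf K = stabilizer K y := by
    ext k
    rfl
  show ((stabilizer G y).subgroupOf K).index ≠ 0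
  rw [h1, index_stabilizer]
  exact (Set.ncard_pos h).2 ⟨y, mem_orbit_self y⟩ |>.ne'

variable [IsPretransitive G Ω] [Infinite Ω]

lemma stab_ne_top (x : Ω) : stabilizer G x ≠ ⊤ := by
  intro h
  have h1 : ∀ y : Ω, y = x := by
    intro y
    obtain ⟨g, rfl⟩ := exists_smul_eq G x y
    have : g ∈ stabilizer G x := by rw [h]; exact mem_top g
    exact mem_stabilizer_iff.1 this
  have : Subsingleton Ω := ⟨fun a b => (h1 a).trans (h1 b).symm⟩
  exact not_finite Ω

lemma open_ne_bot (hfin : ∀ K : Subgroup G, K ≠ ⊤ → ∀ x : Ω, (orbit K x).Finite)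
    (htf : ∀ g : G, IsOfFinOrder g → g = 1) (x : Ω) (T : Subgroup G)
    (hT : T.relIndex (stabilizer G x) ≠ 0) : T ≠ ⊥ := by
  rintro rfl
  have fin_bot : ∀ K : Subgroup G, Nat.card K ≠ 0 → K = ⊥ := by
    intro K hK
    have : Finite K := Nat.finite_of_card_ne_zero hK
    rw [eq_bot_iff_forall]
    intro k hk
    have h1 : IsOfFinOrder (⟨k, hk⟩ : K) := isOfFinOrder_of_finite _
    exact htf k (MonoidHom.isOfFinOrder K.subtype h1)
  have hH : stabilizer G x = ⊥ := by
    apply fin_bot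
    rwa [relIndex_bot_left] at hT
  have hprop : ∀ K : Subgroup G, K ≠ ⊤ → K = ⊥ := by
    intro K hK
    apply fin_bot
    have := relIndex_stab K x (hfin K hK x)
    rwa [hH, relIndex_bot_left] at this
  have hne : ∃ g : G, g ≠ 1 := by
    by_contra hcon
    push Not at hcon
    refine stab_ne_top (G := G) x ((eq_top_iff' _).2 fun g => ?_)
    rw [hcon g]
    exact one_mem _
  obtain ⟨g, hg⟩ := hne
  have h2 : g ^ 2 ≠ 1 := fun h => hg (tf_pow htf g 2 (by norm_num) h)
  have h3 : zpowers (g ^ 2) = ⊤ := by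
    by_contra hcon
    exact h2 (zpowers_eq_bot.1 (hprop _ hcon))
  have h4 : g ∈ zpowers (g ^ 2) := by rw [h3]; exact mem_top g
  obtain ⟨m, hm⟩ := mem_zpowers_iff.1 h4
  have h5 : g ^ (2 * m - 1) = 1 := by
    rw [zpow_sub, zpow_mul, zpow_one]
    have : (g ^ (2 : ℤ)) ^ m = g := by exact_mod_cast hm
    rw [this, mul_inv_cancel]
  have h6 : IsOfFinOrder g := isOfFinOrder_iff_zpow_eq_one.2 ⟨2 * m - 1, by omega, h5⟩
  exact hg (htf g h6)

variable [FaithfulSMul G Ω]

omit [Infinite Ω] in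
lemma normal_dich (hfin : ∀ K : Subgroup G, K ≠ ⊤ → ∀ x : Ω, (orbit K x).Finite)
    (htf : ∀ g : G, IsOfFinOrder g → g = 1) (x : Ω) (N : Subgroup G) (hN : N.Normal) :
    N = ⊥ ∨ N = ⊤ := by
  by_cases htop : N = ⊤
  · exact Or.inr htop
  · left
    rw [eq_bot_iff_forall]
    intro n hn
    let k := (orbit N x).ncard
    have hk : ∀ y : Ω, (stabilizer N y).index = k := by
      intro y
      obtain ⟨g, rfl⟩ := exists_smul_eq G x y
      rw [index_stabilizer, ← smul_orbit_eq_orbit_smul, Set.ncard_smul_set]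
    have hk0 : k ≠ 0 := (Set.ncard_pos (hfin N htop x)).2 ⟨x, mem_orbit_self x⟩ |>.ne'
    have h1 : n ^ k.factorial = 1 := by
      apply FaithfulSMul.eq_of_smul_eq_smul (α := Ω)
      intro y
      have h2 := pow_mem_of_index_ne_zero_of_dvd (H := stabilizer N y) (by rw [hk y]; exact hk0)
        (⟨n, hn⟩ : N) (n := k.factorial)
        (fun m hm hle => Nat.dvd_factorial hm (by rwa [hk y] at hle))
      have h3 : ((⟨n, hn⟩ : N) ^ k.factorial) • y = y := h2
      rw [one_smul]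
      exact h3
    exact tf_pow htf n _ (Nat.factorial_pos k) h1

lemma hyp_of_action (hfin : ∀ K : Subgroup G, K ≠ ⊤ → ∀ x : Ω, (orbit K x).Finite)
    (htf : ∀ g : G, IsOfFinOrder g → g = 1) (x : Ω) : Hyp (stabilizer G x) where
  prop K hK := relIndex_stab K x (hfin K hK x)
  conj g := by
    rw [← stabilizer_smul_eq_stabilizer_map_conj]
    exact relIndex_stab _ _ (hfin _ (stab_ne_top x) _)
  simple := normal_dich hfin htf x
  tf := tf_pow htf
  nonab := by
    by_contra hcon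
    push Not at hcon
    have hH : stabilizer G x = ⊥ := by
      rw [eq_bot_iff_forall]
      intro h hh
      apply FaithfulSMul.eq_of_smul_eq_smul (α := Ω)
      intro y
      obtain ⟨g, rfl⟩ := exists_smul_eq G x y
      rw [one_smul, smul_smul, hcon h g, ← smul_smul, mem_stabilizer_iff.1 hh]
    refine open_ne_bot hfin htf x ⊥ ?_ rfl
    rw [hH, relIndex_self]
    exact one_ne_zero
  ne := open_ne_bot hfin htf x

theorem centralizer_bot (hfin : ∀ K : Subgroup G, K ≠ ⊤ → ∀ x : Ω, (orbit K x).Finite)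
    (htf : ∀ g : G, IsOfFinOrder g → g = 1) (x : Ω) (T : Subgroup G)
    (hT : T.relIndex (stabilizer G x) ≠ 0) (n : ℕ) :
    centralizer (((derivedSeries T n).map T.subtype : Subgroup G) : Set G) = ⊥ := by
  rw [eq_bot_iff, ← X_bot (hyp_of_action hfin htf x) n]
  intro g hg
  refine ⟨T, hT, fun d hd => ?_⟩
  rw [← derived_map] at hd
  exact mem_centralizer_iff.1 hg d hd

theorem not_solvable (hfin : ∀ K : Subgroup G, K ≠ ⊤ → ∀ x : Ω, (orbit K x).Finite)
    (htf : ∀ g : G, IsOfFinOrder g → g = 1) (x : Ω) (T : Subgroup G)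
    (hT : T.relIndex (stabilizer G x) ≠ 0) : ¬ Group.IsSolvable T := by
  rintro ⟨n, hn⟩
  have h1 := centralizer_bot hfin htf x T hT n
  rw [hn, Subgroup.map_bot] at h1
  refine open_ne_bot hfin htf x T hT ?_
  rw [eq_bot_iff, ← h1]
  intro t _
  refine mem_centralizer_iff.2 ?_
  rintro d hd
  have : d = 1 := by simpa using hd
  rw [this, one_mul, mul_one]

end Action

end Pool.Agent.H98.BT
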