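import Mathlib
import Pool.Agent.H98.BT

set_option autoImplicit false

/-!
Torsion-free barely transitive groups: no nontrivial soluble subgroup is normalised by a subgroup
containing a finite-index subgroup of a point stabiliser.
-/

namespace Pool.Agent.H98.BT

open Subgroup
open scoped commutatorElement

variable {G : Type*} [Group G] {H : Subgroup G}

lemma comm_ne_top (h : Hyp H) {A : Subgroup G} (hab : ∀ a ∈ A, ∀ b ∈ A, a * b = b * a) :
    A ≠ ⊤ := by
  rintro rfl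
  obtain ⟨x, y, hxy⟩ := h.nonab
  exact hxy (hab x (mem_top _) y (mem_top _))

lemma pow_mem_open (h : Hyp H) {A W : Subgroup G} (hA : A ≠ ⊤) (hW : W.relIndex H ≠ 0) {a : G}
    (ha : a ∈ A) : ∃ e : ℕ, 0 < e ∧ a ^ e ∈ W := by
  have h1 : W.relIndex A ≠ 0 := relIndex_ne_zero_trans hW (h.prop A hA)
  obtain ⟨e, he, -, hm⟩ := exists_pow_mem_of_relIndex_ne_zero h1 ha
  exact ⟨e, he, hm.1⟩

lemma conj_open (h : Hyp H) {T : Subgroup G} (hT : T.relIndex H ≠ 0) (g : G) :
    (T.map (MulAut.conj g).toMonoidHom).relIndex H ≠ 0 := by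
  refine relIndex_ne_zero_trans (K := H.map (MulAut.conj g).toMonoidHom) ?_ (h.conj g)
  rw [relIndex_map_map_of_injective _ _ (MulAut.conj g).injective]
  exact hT

lemma root_unique (h : Hyp H) {A : Subgroup G} (hab : ∀ a ∈ A, ∀ b ∈ A, a * b = b * a) {a b : G}
    (ha : a ∈ A) (hb : b ∈ A) {e : ℕ} (he : 0 < e) (hp : a ^ e = b ^ e) : a = b := by
  have hc : Commute a b⁻¹ := hab a ha b⁻¹ (inv_mem hb)
  have h1 : (a * b⁻¹) ^ e = 1 := by
    rw [hc.mul_pow, hp, inv_pow, mul_inv_cancel]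
  exact mul_inv_eq_one.1 (h.tf _ _ he h1)

lemma delta_pow {A : Subgroup G} (hab : ∀ a ∈ A, ∀ b ∈ A, a * b = b * a) {t v : G} (hv : v ∈ A)
    (hn : t * v * t⁻¹ ∈ A) (e : ℕ) :
    t * v ^ e * t⁻¹ * (v ^ e)⁻¹ = (t * v * t⁻¹ * v⁻¹) ^ e := by
  have hc : Commute (t * v * t⁻¹) v⁻¹ := hab _ hn _ (inv_mem hv)
  rw [hc.mul_pow, conj_pow, inv_pow]

/-- stable abelian subgroups -/
structure Stable (H A : Subgroup G) : Prop where
  comm : ∀ a ∈ A, ∀ b ∈ A, a * b = b * a
  norm : ∃ T : Subgroup G, T.relIndex H ≠ 0 ∧ ∀ t ∈ T, ∀ a ∈ A, t * a * t⁻¹ ∈ A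
  stab : ∀ W : Subgroup G, W.relIndex H ≠ 0 → ∀ g : G, (∀ a ∈ A, a ∈ W → a * g = g * a) →
    ∀ a ∈ A, a * g = g * a

/-- elements centralising an open part of `A` -/
def CA (H A : Subgroup G) : Subgroup G where
  carrier := {g | ∃ W : Subgroup G, W.relIndex H ≠ 0 ∧ ∀ a ∈ A, a ∈ W → a * g = g * a}
  one_mem' := ⟨⊤, by rw [relIndex_top_left]; exact one_ne_zero, fun a _ _ => by simp⟩
  mul_mem' := by
    rintro a b ⟨T, hT, ha⟩ ⟨S, hS, hb⟩
    refine ⟨T ⊓ S, relIndex_inf_ne_zero hT hS, fun d hd hdW => ?_⟩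
    rw [← mul_assoc, ha d hd hdW.1, mul_assoc, hb d hd hdW.2, mul_assoc]
  inv_mem' := by
    rintro a ⟨T, hT, ha⟩
    refine ⟨T, hT, fun d hd hdW => ?_⟩
    rw [mul_inv_eq_iff_eq_mul, mul_assoc, ha d hd hdW, inv_mul_cancel_left]

lemma exists_stable (h : Hyp H) (A T : Subgroup G) (hT : T.relIndex H ≠ 0)
    (hab : ∀ a ∈ A, ∀ b ∈ A, a * b = b * a) (hn : ∀ t ∈ T, ∀ a ∈ A, t * a * t⁻¹ ∈ A)
    (hA : A ≠ ⊥) : ∃ A1 : Subgroup G, Stable H A1 ∧ A1 ≠ ⊥ := by
  have hAtop : A ≠ ⊤ := comm_ne_top h hab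
  obtain ⟨a0, ha0, ha01⟩ : ∃ a ∈ A, a ≠ 1 := by
    by_contra hcon
    push Not at hcon
    exact hA ((eq_bot_iff_forall A).2 hcon)
  -- elements of `T` in `CA` centralise `A`
  have hTC : ∀ t ∈ T, t ∈ CA H A → ∀ a ∈ A, a * t = t * a := by
    rintro t ht ⟨W, hW, hWt⟩ a ha
    obtain ⟨e, he, hae⟩ := pow_mem_open h hAtop hW ha
    have h1 : (t * a * t⁻¹) ^ e = a ^ e := by
      rw [conj_pow, ← hWt (a ^ e) (pow_mem ha e) hae, mul_inv_cancel_right]
    have h2 := root_unique h hab (hn t ht a ha) ha he h1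
    rw [mul_inv_eq_iff_eq_mul] at h2
    exact h2.symm
  have hCtop : CA H A ≠ ⊤ := by
    intro hc
    have h1 : a0 ∈ X H 0 := ⟨T, hT, fun d hd => by
      exact (hTC d hd (by rw [hc]; exact mem_top d) a0 ha0).symm⟩
    rw [X_zero h] at h1
    exact ha01 (mem_bot.1 h1)
  have hTCA : T.relIndex (CA H A) ≠ 0 := relIndex_ne_zero_trans hT (h.prop _ hCtop)
  let K : Subgroup G → Subgroup G := fun W => centralizer ((A ⊓ W : Subgroup G) : Set G)
  have hKmem : ∀ W g, g ∈ K W ↔ ∀ a ∈ A, a ∈ W → a * g = g * a := by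
    intro W g
    constructor
    · intro hg a ha haW
      exact mem_centralizer_iff.1 hg a ⟨ha, haW⟩
    · intro hg
      exact mem_centralizer_iff.2 fun a ha => hg a ha.1 ha.2
  have hKle : ∀ W : Subgroup G, W.relIndex H ≠ 0 → K W ≤ CA H A := by
    intro W hW g hg
    exact ⟨W, hW, (hKmem W g).1 hg⟩
  have hKmono : ∀ W W' : Subgroup G, W' ≤ W → K W ≤ K W' := by
    intro W W' hle g hg
    rw [hKmem] at hg ⊢
    exact fun a ha haW => hg a ha (hle haW)
  have hKne : ∀ W : Subgroup G, W.relIndex H ≠ 0 → (K W).relIndex (CA H A) ≠ 0 := by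
    intro W hW h0
    have h1 : T ⊓ CA H A ≤ K W := by
      intro t ht
      rw [hKmem]
      exact fun a ha _ => hTC t ht.1 ht.2 a ha
    have h2 := relIndex_dvd_of_le_left (CA H A) h1
    rw [h0, zero_dvd_iff, inf_relIndex_right] at h2
    exact hTCA h2
  classical
  have hex : ∃ n : ℕ, ∃ W : Subgroup G, W.relIndex H ≠ 0 ∧ (K W).relIndex (CA H A) = n :=
    ⟨_, T, hT, rfl⟩
  obtain ⟨W1, hW1, hW1n⟩ := Nat.find_spec hex
  have hmin : ∀ W : Subgroup G, W.relIndex H ≠ 0 →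
      (K W1).relIndex (CA H A) ≤ (K W).relIndex (CA H A) := by
    intro W hW
    rw [hW1n]
    exact Nat.find_min' hex ⟨W, hW, rfl⟩
  have hstabK : CA H A ≤ K W1 := by
    rintro g ⟨W', hW', hg⟩
    have hW2 : (W1 ⊓ W').relIndex H ≠ 0 := relIndex_inf_ne_zero hW1 hW'
    have hg2 : g ∈ K (W1 ⊓ W') := by
      rw [hKmem]
      exact fun a ha haW => hg a ha haW.2
    have hle : K W1 ≤ K (W1 ⊓ W') := hKmono _ _ inf_le_left
    have h1 := relIndex_mul_relIndex (K W1) (K (W1 ⊓ W')) (CA H A) hle (hKle _ hW2)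
    have h2 := hmin _ hW2
    have h3 := hKne _ hW2
    have h4 := hKne _ hW1
    have h5 : (K W1).relIndex (K (W1 ⊓ W')) = 1 := by
      have h6 : (K W1).relIndex (K (W1 ⊓ W')) ≠ 0 := by
        intro h0
        rw [h0, zero_mul] at h1
        exact h4 h1.symm
      have h7 : (K W1).relIndex (K (W1 ⊓ W')) ≤ 1 := by
        by_contra hcon
        push Not at hcon
        have : 2 * (K (W1 ⊓ W')).relIndex (CA H A) ≤ (K W1).relIndex (CA H A) := by
          rw [← h1]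
          exact Nat.mul_le_mul_right _ hcon
        omega
      omega
    rw [relIndex_eq_one] at h5
    exact h5 hg2
  refine ⟨A ⊓ W1, ⟨?_, ?_, ?_⟩, ?_⟩
  · exact fun a ha b hb => hab a ha.1 b hb.1
  · refine ⟨T ⊓ W1, relIndex_inf_ne_zero hT hW1, fun t ht a ha => ⟨hn t ht.1 a ha.1, ?_⟩⟩
    exact W1.mul_mem (W1.mul_mem ht.2 ha.2) (W1.inv_mem ht.2)
  · intro W hW g hg a ha
    have h1 : g ∈ CA H A :=
      ⟨W1 ⊓ W, relIndex_inf_ne_zero hW1 hW, fun b hb hbW => hg b ⟨hb, hbW.1⟩ hbW.2⟩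
    exact (hKmem W1 g).1 (hstabK h1) a ha.1 ha.2
  · intro hbot
    obtain ⟨e, he, hae⟩ := pow_mem_open h hAtop hW1 ha0
    have h1 : a0 ^ e ∈ A ⊓ W1 := ⟨pow_mem ha0 e, hae⟩
    rw [hbot, mem_bot] at h1
    exact ha01 (h.tf _ _ he h1)

/-- if `A`, `B` are stable then `A` commutes with its conjugates by elements of `B` -/
lemma pair (h : Hyp H) {A B : Subgroup G} (sA : Stable H A) (sB : Stable H B) {b a a' : G}
    (hb : b ∈ B) (ha : a ∈ A) (ha' : a' ∈ A) : a' * (b * a * b⁻¹) = b * a * b⁻¹ * a' := by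
  obtain ⟨TA, hTA, hnA⟩ := sA.norm
  obtain ⟨TB, hTB, hnB⟩ := sB.norm
  let W := TA ⊓ TB
  have hW : W.relIndex H ≠ 0 := relIndex_inf_ne_zero hTA hTB
  -- first for conjugates of elements of `A ⊓ W`
  have step : ∀ β ∈ B, ∀ x ∈ A, x ∈ W → ∀ z ∈ A, z * (β * x * β⁻¹) = β * x * β⁻¹ * z := by
    intro β hβ x hx hxW
    obtain ⟨l, hl, hβl⟩ := pow_mem_open h (comm_ne_top h sB.comm) hW hβ
    have hc1 : x * β * x⁻¹ * β⁻¹ ∈ B := mul_mem (hnB x hxW.2 β hβ) (inv_mem hβ)
    have hcA : ∀ x' ∈ A, x' ∈ W → x' * (x * β * x⁻¹ * β⁻¹) = x * β * x⁻¹ * β⁻¹ * x' := by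
      intro x' hx' hx'W
      have h1 : (x * β * x⁻¹ * β⁻¹) ^ l = x * β ^ l * x⁻¹ * (β ^ l)⁻¹ :=
        (delta_pow sB.comm hβ (hnB x hxW.2 β hβ) l).symm
      have h2 : x * β ^ l * x⁻¹ * (β ^ l)⁻¹ ∈ A := by
        have : x * β ^ l * x⁻¹ * (β ^ l)⁻¹ = x * (β ^ l * x⁻¹ * (β ^ l)⁻¹) := by group
        rw [this]
        exact mul_mem hx (hnA _ hβl.1 _ (inv_mem hx))
      have h3 := sA.comm x' hx' _ h2
      have h4 : (x' * (x * β * x⁻¹ * β⁻¹) * x'⁻¹ * (x * β * x⁻¹ * β⁻¹)⁻¹) ^ l = 1 := by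
        rw [← delta_pow sB.comm hc1 (hnB x' hx'W.2 _ hc1) l, h1, h3]
        group
      have h5 := h.tf _ _ hl h4
      rw [mul_inv_eq_one, mul_inv_eq_iff_eq_mul] at h5
      exact h5
    have hcA' := sA.stab W hW _ hcA
    intro z hz
    have h6 := hcA' z hz
    have h7 := sA.comm z hz x hx
    have e1 : β * x * β⁻¹ = (x * β * x⁻¹ * β⁻¹)⁻¹ * x := by group
    have h8 : z * (x * β * x⁻¹ * β⁻¹)⁻¹ = (x * β * x⁻¹ * β⁻¹)⁻¹ * z := by
      rw [mul_inv_eq_iff_eq_mul, mul_assoc, h6, inv_mul_cancel_left]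
    rw [e1]
    calc z * ((x * β * x⁻¹ * β⁻¹)⁻¹ * x) = (z * (x * β * x⁻¹ * β⁻¹)⁻¹) * x := (mul_assoc _ _ _).symm
      _ = ((x * β * x⁻¹ * β⁻¹)⁻¹ * z) * x := by rw [h8]
      _ = (x * β * x⁻¹ * β⁻¹)⁻¹ * (z * x) := mul_assoc _ _ _
      _ = (x * β * x⁻¹ * β⁻¹)⁻¹ * (x * z) := by rw [h7]
      _ = (x * β * x⁻¹ * β⁻¹)⁻¹ * x * z := (mul_assoc _ _ _).symm
  have hg : ∀ x ∈ A, x ∈ W → x * (b * a * b⁻¹) = b * a * b⁻¹ * x := by
    intro x hx hxW
    have h1 := step b⁻¹ (inv_mem hb) x hx hxW a ha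
    rw [inv_inv] at h1
    calc x * (b * a * b⁻¹) = b * ((b⁻¹ * x * b) * a) * b⁻¹ := by group
      _ = b * (a * (b⁻¹ * x * b)) * b⁻¹ := by rw [h1]
      _ = b * a * b⁻¹ * x := by group
  exact sA.stab W hW _ hg a' ha'

lemma stable_conj (h : Hyp H) {A : Subgroup G} (sA : Stable H A) (v : G) :
    Stable H (A.map (MulAut.conj v).toMonoidHom) := by
  have hmem : ∀ x, x ∈ A.map (MulAut.conj v).toMonoidHom ↔ ∃ a ∈ A, v * a * v⁻¹ = x := by
    intro x
    constructor
    · rintro ⟨a, ha, rfl⟩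
      exact ⟨a, ha, rfl⟩
    · rintro ⟨a, ha, rfl⟩
      exact ⟨a, ha, rfl⟩
  refine ⟨?_, ?_, ?_⟩
  · intro x hx y hy
    rw [hmem] at hx hy
    obtain ⟨a, ha, rfl⟩ := hx
    obtain ⟨b, hb, rfl⟩ := hy
    calc v * a * v⁻¹ * (v * b * v⁻¹) = v * (a * b) * v⁻¹ := by group
      _ = v * (b * a) * v⁻¹ := by rw [sA.comm a ha b hb]
      _ = v * b * v⁻¹ * (v * a * v⁻¹) := by group
  · obtain ⟨T, hT, hn⟩ := sA.norm
    refine ⟨T.map (MulAut.conj v).toMonoidHom, conj_open h hT v, ?_⟩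
    rintro _ ⟨t, ht, rfl⟩ x hx
    rw [hmem] at hx ⊢
    obtain ⟨a, ha, rfl⟩ := hx
    refine ⟨t * a * t⁻¹, hn t ht a ha, ?_⟩
    simp only [MulEquiv.coe_toMonoidHom, MulAut.conj_apply]
    group
  · intro W hW g hg x hx
    rw [hmem] at hx
    obtain ⟨a, ha, rfl⟩ := hx
    have h1 : ∀ b ∈ A, b ∈ W.map (MulAut.conj v⁻¹).toMonoidHom →
        b * (v⁻¹ * g * v) = v⁻¹ * g * v * b := by
      rintro b hb ⟨w, hw, hwb⟩
      simp only [MulEquiv.coe_toMonoidHom, MulAut.conj_apply, inv_inv] at hwb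
      have h2 : v * b * v⁻¹ ∈ W := by
        have : v * b * v⁻¹ = w := by rw [← hwb]; group
        rw [this]; exact hw
      have h3 := hg _ ((hmem _).2 ⟨b, hb, rfl⟩) h2
      calc b * (v⁻¹ * g * v) = v⁻¹ * ((v * b * v⁻¹) * g) * v := by group
        _ = v⁻¹ * (g * (v * b * v⁻¹)) * v := by rw [h3]
        _ = v⁻¹ * g * v * b := by group
    have h4 := sA.stab _ (conj_open h hW v⁻¹) _ h1 a ha
    calc v * a * v⁻¹ * g = v * (a * (v⁻¹ * g * v)) * v⁻¹ := by group
      _ = v * (v⁻¹ * g * v * a) * v⁻¹ := by rw [h4]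
      _ = g * (v * a * v⁻¹) := by group

lemma stable_sup {A B : Subgroup G} (sA : Stable H A) (sB : Stable H B)
    (hAB : ∀ a ∈ A, ∀ b ∈ B, a * b = b * a) : Stable H (A ⊔ B) := by
  have key1 : ∀ g : G, (∀ a ∈ A, a * g = g * a) → (∀ b ∈ B, b * g = g * b) →
      ∀ x ∈ A ⊔ B, x * g = g * x := by
    intro g h1 h2 x hx
    have hle : A ⊔ B ≤ centralizer {g} := by
      refine sup_le ?_ ?_
      · intro a ha
        exact mem_centralizer_singleton_iff.2 (h1 a ha)
      · intro b hb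
        exact mem_centralizer_singleton_iff.2 (h2 b hb)
    exact mem_centralizer_singleton_iff.1 (hle hx)
  refine ⟨?_, ?_, ?_⟩
  · intro x hx y hy
    refine key1 y (fun a ha => ?_) (fun b hb => ?_) x hx
    · exact (key1 a (fun a' ha' => sA.comm a' ha' a ha) (fun b hb => (hAB a ha b hb).symm) y hy).symm
    · exact (key1 b (fun a ha => hAB a ha b hb) (fun b' hb' => sB.comm b' hb' b hb) y hy).symm
  · obtain ⟨TA, hTA, hnA⟩ := sA.norm
    obtain ⟨TB, hTB, hnB⟩ := sB.norm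
    refine ⟨TA ⊓ TB, relIndex_inf_ne_zero hTA hTB, fun t ht x hx => ?_⟩
    have h1 : (A ⊔ B).map (MulAut.conj t).toMonoidHom ≤ A ⊔ B := by
      rw [Subgroup.map_sup]
      refine sup_le_sup ?_ ?_
      · rintro _ ⟨a, ha, rfl⟩
        exact hnA t ht.1 a ha
      · rintro _ ⟨b, hb, rfl⟩
        exact hnB t ht.2 b hb
    exact h1 (mem_map_of_mem (MulAut.conj t).toMonoidHom hx)
  · intro W hW g hg
    refine key1 g ?_ ?_
    · exact sA.stab W hW g fun a ha haW => hg a (mem_sup_left ha) haW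
    · exact sB.stab W hW g fun b hb hbW => hg b (mem_sup_right hb) hbW

/-- elements of stable subgroups -/
def Pi (H : Subgroup G) (u : G) : Prop := ∃ A : Subgroup G, Stable H A ∧ u ∈ A

lemma pi_inv {u : G} (hu : Pi H u) : Pi H u⁻¹ := by
  obtain ⟨A, sA, hA⟩ := hu
  exact ⟨A, sA, inv_mem hA⟩

lemma pi_conj (h : Hyp H) {u : G} (hu : Pi H u) (v : G) : Pi H (v * u * v⁻¹) := by
  obtain ⟨A, sA, hA⟩ := hu
  exact ⟨_, stable_conj h sA v, mem_map_of_mem (MulAut.conj v).toMonoidHom hA⟩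

lemma pi_comm (h : Hyp H) {u v : G} (hu : Pi H u) (hv : Pi H v) :
    Pi H (u * v * u⁻¹ * v⁻¹) ∧ Commute (u * v * u⁻¹ * v⁻¹) u ∧
      Commute (u * v * u⁻¹ * v⁻¹) v := by
  obtain ⟨A, sA, hA⟩ := hu
  obtain ⟨B, sB, hB⟩ := hv
  have e1 : u * v * u⁻¹ * v⁻¹ = u * (v * u⁻¹ * v⁻¹) := by group
  refine ⟨?_, ?_, ?_⟩
  · refine ⟨A ⊔ A.map (MulAut.conj v).toMonoidHom, stable_sup sA (stable_conj h sA v) ?_, ?_⟩
    · rintro a ha _ ⟨a', ha', rfl⟩
      exact pair h sA sB hB ha' ha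
    · rw [e1]
      exact mul_mem (mem_sup_left hA)
        (mem_sup_right (mem_map_of_mem (MulAut.conj v).toMonoidHom (inv_mem hA)))
  · rw [e1]
    exact (Commute.refl u).mul_left (pair h sA sB hB (inv_mem hA) hA).symm
  · exact Commute.mul_left (pair h sB sA hA hB hB).symm (Commute.refl v).inv_left

lemma comm_pow {c a z : G} (hz : z = c * a * c⁻¹ * a⁻¹) (h1 : Commute z c) (h2 : Commute z a)
    (N m : ℕ) : c ^ N * a ^ m * (c ^ N)⁻¹ * (a ^ m)⁻¹ = z ^ (N * m) := by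
  have h3 : c * a * c⁻¹ = z * a := by rw [hz]; group
  have h4 : ∀ n : ℕ, c ^ n * a * (c ^ n)⁻¹ = z ^ n * a := by
    intro n
    induction n with
    | zero => simp
    | succ n ih =>
      have h5 : c * z ^ n = z ^ n * c := (h1.pow_left n).symm
      calc c ^ (n + 1) * a * (c ^ (n + 1))⁻¹ = c * (c ^ n * a * (c ^ n)⁻¹) * c⁻¹ := by
            rw [pow_succ']; group
        _ = c * (z ^ n * a) * c⁻¹ := by rw [ih]
        _ = (c * z ^ n) * a * c⁻¹ := by group
        _ = z ^ n * (c * a * c⁻¹) := by rw [h5]; group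
        _ = z ^ n * (z * a) := by rw [h3]
        _ = z ^ (n + 1) * a := by rw [pow_succ]; group
  have h6 : c ^ N * a ^ m * (c ^ N)⁻¹ = z ^ (N * m) * a ^ m := by
    rw [← conj_pow, h4 N, (h2.pow_left N).mul_pow, ← pow_mul]
  rw [h6, mul_inv_cancel_right]

/-- left-normed commutators -/
def lc : G → List G → G
  | c, [] => c
  | c, a :: l => lc (c * a * c⁻¹ * a⁻¹) l

lemma lc_one (l : List G) : lc 1 l = 1 := by
  induction l with
  | nil => rfl
  | cons a l ih => rw [lc]; simpa using ih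

lemma lc_append (c : G) (l : List G) (a : G) :
    lc c (l ++ [a]) = lc c l * a * (lc c l)⁻¹ * a⁻¹ := by
  induction l generalizing c with
  | nil => rfl
  | cons b l ih => rw [List.cons_append, lc, ih, lc]

lemma lc_pow (h : Hyp H) (m : ℕ) (l : List G) : ∀ (c : G) (N : ℕ), Pi H c → (∀ a ∈ l, Pi H a) →
    lc (c ^ N) (l.map (fun a => a ^ m)) = (lc c l) ^ (N * m ^ l.length) := by
  induction l with
  | nil => intro c N _ _; simp [lc]
  | cons a l ih =>
    intro c N hc hl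
    have ha : Pi H a := hl a (by simp)
    obtain ⟨p1, p2, p3⟩ := pi_comm h hc ha
    rw [List.map_cons, lc, lc, comm_pow rfl p2 p3 N m,
      ih _ _ p1 (fun b hb => hl b (by simp [hb])), List.length_cons, pow_succ]
    congr 1
    ring

/-- pigeonhole: long left-normed commutators of elements of few abelian normal subgroups vanish -/
lemma vanish (W : Subgroup G) (F : Finset G) (A : G → Subgroup G)
    (hab : ∀ i ∈ F, ∀ a ∈ A i, ∀ b ∈ A i, a * b = b * a)
    (hn : ∀ i ∈ F, ∀ t ∈ W, ∀ a ∈ A i, t * a * t⁻¹ ∈ A i) (l : List G) :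
    ∀ (c : G) (s : Finset G), c ∈ W → s ⊆ F → (∀ i ∈ s, c ∈ A i) →
      (∀ a ∈ l, a ∈ W ∧ ∃ j ∈ F, a ∈ A j) → F.card < l.length + s.card → lc c l = 1 := by
  classical
  induction l with
  | nil =>
    intro c s _ hs _ _ hlt
    have := Finset.card_le_card hs
    simp at hlt
    omega
  | cons a l ih =>
    intro c s hc hs hcs hl hlt
    obtain ⟨haW, j, hj, haj⟩ := hl a (by simp)
    rw [lc]
    by_cases hjs : j ∈ s
    · have h1 := hab j hj c (hcs j hjs) a haj
      have h2 : c * a * c⁻¹ * a⁻¹ = 1 := by rw [h1]; group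
      rw [h2, lc_one]
    · have e1 : c * a * c⁻¹ * a⁻¹ = c * (a * c⁻¹ * a⁻¹) := by group
      refine ih _ (insert j s) ?_ ?_ ?_ (fun b hb => hl b (by simp [hb])) ?_
      · exact mul_mem (mul_mem (mul_mem hc haW) (inv_mem hc)) (inv_mem haW)
      · exact Finset.insert_subset hj hs
      · intro i hi
        rcases Finset.mem_insert.1 hi with rfl | hi
        · exact mul_mem (hn i hj c hc a haj) (inv_mem haj)
        · rw [e1]
          exact mul_mem (hcs i hi) (hn i (hs hi) a haW _ (inv_mem (hcs i hi)))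
      · rw [Finset.card_insert_of_notMem hjs]
        rw [List.length_cons] at hlt
        omega

lemma exists_common (h : Hyp H) (F : Finset G) (hF : ∀ a ∈ F, Pi H a) :
    ∃ (A : G → Subgroup G) (W : Subgroup G) (m : ℕ), W.relIndex H ≠ 0 ∧ 0 < m ∧
      (∀ i ∈ F, ∀ a ∈ A i, ∀ b ∈ A i, a * b = b * a) ∧
      (∀ i ∈ F, ∀ t ∈ W, ∀ a ∈ A i, t * a * t⁻¹ ∈ A i) ∧
      (∀ i ∈ F, i ∈ A i) ∧ (∀ i ∈ F, i ^ m ∈ W) := by
  classical
  choose! A sA hA using hF
  have hW : ∀ E : Finset G, E ⊆ F → ∃ W : Subgroup G, W.relIndex H ≠ 0 ∧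
      ∀ i ∈ E, ∀ t ∈ W, ∀ a ∈ A i, t * a * t⁻¹ ∈ A i := by
    intro E
    induction E using Finset.induction_on with
    | empty => exact fun _ => ⟨⊤, by rw [relIndex_top_left]; exact one_ne_zero, by simp⟩
    | insert j E _ ih =>
      intro hE
      obtain ⟨W, hW, hWn⟩ := ih (fun x hx => hE (Finset.mem_insert_of_mem hx))
      obtain ⟨T, hT, hTn⟩ := (sA j (hE (Finset.mem_insert_self j E))).norm
      refine ⟨W ⊓ T, relIndex_inf_ne_zero hW hT, ?_⟩
      intro i hi t ht a ha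
      rcases Finset.mem_insert.1 hi with rfl | hi
      · exact hTn t ht.2 a ha
      · exact hWn i hi t ht.1 a ha
  obtain ⟨W, hW1, hWn⟩ := hW F (Finset.Subset.refl F)
  have he : ∀ i ∈ F, ∃ e : ℕ, 0 < e ∧ i ^ e ∈ W := fun i hi =>
    pow_mem_open h (comm_ne_top h (sA i hi).comm) hW1 (hA i hi)
  choose! e he1 he2 using he
  refine ⟨A, W, ∏ i ∈ F, e i, hW1, Finset.prod_pos he1, fun i hi => (sA i hi).comm, hWn, hA, ?_⟩
  intro i hi
  obtain ⟨q, hq⟩ := Finset.dvd_prod_of_mem e hi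
  rw [hq, pow_mul]
  exact pow_mem (he2 i hi) q

lemma lc_vanish (h : Hyp H) (F : Finset G) (hF : ∀ a ∈ F, Pi H a) (x : G) (hx : x ∈ F)
    (l : List G) (hl : ∀ a ∈ l, a ∈ F ∨ a⁻¹ ∈ F) (hlen : F.card < l.length) : lc x l = 1 := by
  obtain ⟨A, W, m, _, hm, hab, hn, hA, hmW⟩ := exists_common h F hF
  have hPl : ∀ a ∈ l, Pi H a := by
    intro a ha
    rcases hl a ha with h1 | h1
    · exact hF a h1
    · have := pi_inv (hF _ h1)
      rwa [inv_inv] at this
  have h1 : lc (x ^ m) (l.map (fun a => a ^ m)) = 1 := by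
    refine vanish W F A hab hn _ _ ∅ (hmW x hx) (by simp) (by simp) ?_ (by simpa using hlen)
    intro b hb
    obtain ⟨a, ha, rfl⟩ := List.mem_map.1 hb
    rcases hl a ha with h2 | h2
    · exact ⟨hmW a h2, a, h2, pow_mem (hA a h2) m⟩
    · refine ⟨?_, a⁻¹, h2, ?_⟩
      · have := inv_mem (hmW _ h2)
        rwa [inv_pow, inv_inv] at this
      · have := inv_mem (pow_mem (hA _ h2) m)
        rwa [inv_pow, inv_inv] at this
  rw [lc_pow h m l x m (hF x hx) hPl] at h1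
  exact h.tf _ _ (Nat.mul_pos hm (pow_pos hm _)) h1

lemma pi_closure (h : Hyp H) {u : G} (hu : Pi H u) (hu1 : u ≠ 1) :
    closure {v | Pi H v} = ⊤ := by
  have hn : (closure {v | Pi H v}).Normal := by
    constructor
    intro n hn g
    have hle : closure {v | Pi H v} ≤
        (closure {v | Pi H v}).comap (MulAut.conj g).toMonoidHom := by
      rw [closure_le]
      intro v hv
      exact subset_closure (pi_conj h hv g)
    exact hle hn
  rcases h.simple _ hn with h1 | h1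
  · exfalso
    have h2 : u ∈ closure {v | Pi H v} := subset_closure hu
    rw [h1, mem_bot] at h2
    exact hu1 h2
  · exact h1

/-- the normal closure of `c` in the subgroup generated by `F` and `c` -/
def NC (F : Set G) (c : G) : Subgroup G := closure {z | ∃ k ∈ closure F, z = k * c * k⁻¹}

lemma NC_mono {F F' : Set G} (hF : F ⊆ F') (c : G) : NC F c ≤ NC F' c := by
  refine closure_mono ?_
  rintro _ ⟨k, hk, rfl⟩
  exact ⟨k, closure_mono hF hk, rfl⟩

lemma NC_conj {F : Set G} {c k z : G} (hk : k ∈ closure F) (hz : z ∈ NC F c) :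
    k * z * k⁻¹ ∈ NC F c := by
  have hle : NC F c ≤ (NC F c).comap (MulAut.conj k).toMonoidHom := by
    conv_lhs => rw [NC]
    rw [closure_le]
    rintro _ ⟨k', hk', rfl⟩
    refine subset_closure ⟨k * k', mul_mem hk hk', ?_⟩
    simp only [MulEquiv.coe_toMonoidHom, MulAut.conj_apply]
    group
  exact hle hz

/-- the union of the subgroups `NC F c` over finite sets `F` of elements of stable subgroups -/
def FN (H : Subgroup G) (c : G) : Subgroup G where
  carrier := {g | ∃ F : Finset G, (∀ a ∈ F, Pi H a) ∧ g ∈ NC (F : Set G) c}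
  one_mem' := ⟨∅, by simp, one_mem _⟩
  mul_mem' := by
    classical
    rintro a b ⟨F, hF, ha⟩ ⟨E, hE, hb⟩
    refine ⟨F ∪ E, ?_, mul_mem (NC_mono (by simp) c ha) (NC_mono (by simp) c hb)⟩
    intro x hx
    rcases Finset.mem_union.1 hx with h1 | h1
    · exact hF x h1
    · exact hE x h1
  inv_mem' := by
    rintro a ⟨F, hF, ha⟩
    exact ⟨F, hF, inv_mem ha⟩

lemma FN_conj {c v z : G} (hv : Pi H v) (hz : z ∈ FN H c) : v * z * v⁻¹ ∈ FN H c := by
  classical
  obtain ⟨F, hF, hz⟩ := hz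
  refine ⟨insert v F, ?_, ?_⟩
  · intro a ha
    rcases Finset.mem_insert.1 ha with rfl | ha
    · exact hv
    · exact hF a ha
  · exact NC_conj (subset_closure (by simp)) (NC_mono (by simp) c hz)

lemma FN_top (h : Hyp H) {u c : G} (hu : Pi H u) (hu1 : u ≠ 1) (hc : c ≠ 1) : FN H c = ⊤ := by
  have hn : (FN H c).Normal := by
    constructor
    intro n hn g
    have hg : g ∈ closure {v | Pi H v} := by rw [pi_closure h hu hu1]; exact mem_top g
    have : ∀ z ∈ FN H c, g * z * g⁻¹ ∈ FN H c ∧ g⁻¹ * z * g ∈ FN H c := by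
      induction hg using closure_induction with
      | mem v hv =>
        intro z hz
        refine ⟨FN_conj hv hz, ?_⟩
        have := FN_conj (pi_inv hv) hz
        rwa [inv_inv] at this
      | one => intro z hz; simpa using hz
      | mul a b _ _ iha ihb =>
        intro z hz
        constructor
        · have h1 := (iha _ (ihb z hz).1).1
          have e : a * b * z * (a * b)⁻¹ = a * (b * z * b⁻¹) * a⁻¹ := by group
          rw [e]; exact h1
        · have h1 := (ihb _ (iha z hz).2).2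
          have e : (a * b)⁻¹ * z * (a * b) = b⁻¹ * (a⁻¹ * z * a) * b := by group
          rw [e]; exact h1
      | inv a _ iha =>
        intro z hz
        refine ⟨?_, ?_⟩
        · rw [inv_inv]; exact (iha z hz).2
        · rw [inv_inv]; exact (iha z hz).1
    exact (this n hn).1
  have hcm : c ∈ FN H c := ⟨∅, by simp, subset_closure ⟨1, one_mem _, by simp⟩⟩
  rcases h.simple _ hn with h1 | h1
  · exfalso
    rw [h1, mem_bot] at hcm
    exact hc hcm
  · exact h1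

/-- the terms of the lower central series, generated by conjugates of left-normed commutators -/
def Gam (F : Finset G) (x : G) (j : ℕ) : Subgroup G :=
  closure {z | ∃ k ∈ closure (F : Set G), ∃ l : List G, l.length = j ∧ (∀ a ∈ l, a ∈ F) ∧
    z = k * lc x l * k⁻¹}

lemma Gam_conj {F : Finset G} {x : G} {j : ℕ} {k z : G} (hk : k ∈ closure (F : Set G))
    (hz : z ∈ Gam F x j) : k * z * k⁻¹ ∈ Gam F x j := by
  have hle : Gam F x j ≤ (Gam F x j).comap (MulAut.conj k).toMonoidHom := by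
    conv_lhs => rw [Gam]
    rw [closure_le]
    rintro _ ⟨k', hk', l, hl, hlF, rfl⟩
    refine subset_closure ⟨k * k', mul_mem hk hk', l, hl, hlF, ?_⟩
    simp only [MulEquiv.coe_toMonoidHom, MulAut.conj_apply]
    group
  exact hle hz

lemma lc_mem {F : Finset G} (l : List G) : ∀ x : G, x ∈ closure (F : Set G) →
    (∀ a ∈ l, a ∈ F) → lc x l ∈ closure (F : Set G) := by
  induction l with
  | nil => intro x hx _; exact hx
  | cons a l ih =>
    intro x hx hl
    rw [lc]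
    have ha : a ∈ closure (F : Set G) := subset_closure (hl a (by simp))
    refine ih _ ?_ (fun b hb => hl b (by simp [hb]))
    exact mul_mem (mul_mem (mul_mem hx ha) (inv_mem hx)) (inv_mem ha)

lemma Gam_le {F : Finset G} {x : G} (hx : x ∈ closure (F : Set G)) (j : ℕ) :
    Gam F x j ≤ closure (F : Set G) := by
  rw [Gam, closure_le]
  rintro _ ⟨k, hk, l, -, hlF, rfl⟩
  exact mul_mem (mul_mem hk (lc_mem l x hx hlF)) (inv_mem hk)

lemma Gam_comm_lc {F : Finset G} {x : G} {l : List G} (hlF : ∀ a ∈ l, a ∈ F) {k : G}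
    (hk : k ∈ closure (F : Set G)) :
    lc x l * k * (lc x l)⁻¹ * k⁻¹ ∈ Gam F x (l.length + 1) := by
  induction hk using closure_induction with
  | mem a ha =>
    refine subset_closure ⟨1, one_mem _, l ++ [a], by simp, ?_, ?_⟩
    · intro b hb
      rcases List.mem_append.1 hb with h1 | h1
      · exact hlF b h1
      · rw [List.mem_singleton] at h1
        rw [h1]; exact ha
    · rw [lc_append]; simp
  | one => simp
  | mul a b ha _ iha ihb =>
    have e : lc x l * (a * b) * (lc x l)⁻¹ * (a * b)⁻¹ =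
        (lc x l * a * (lc x l)⁻¹ * a⁻¹) * (a * (lc x l * b * (lc x l)⁻¹ * b⁻¹) * a⁻¹) := by group
    rw [e]
    exact mul_mem iha (Gam_conj ha ihb)
  | inv a ha iha =>
    have e : lc x l * a⁻¹ * (lc x l)⁻¹ * a⁻¹⁻¹ =
        a⁻¹ * (lc x l * a * (lc x l)⁻¹ * a⁻¹)⁻¹ * a⁻¹⁻¹ := by group
    rw [e]
    exact Gam_conj (inv_mem ha) (inv_mem iha)

lemma Gam_comm {F : Finset G} {x : G} (hx : x ∈ closure (F : Set G)) {j : ℕ} {z : G}
    (hz : z ∈ Gam F x j) : ∀ k ∈ closure (F : Set G), z * k * z⁻¹ * k⁻¹ ∈ Gam F x (j + 1) := by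
  unfold Gam at hz
  induction hz using closure_induction with
  | mem z hz =>
    obtain ⟨k0, hk0, l, rfl, hlF, rfl⟩ := hz
    intro k hk
    have e : k0 * lc x l * k0⁻¹ * k * (k0 * lc x l * k0⁻¹)⁻¹ * k⁻¹ =
        k0 * (lc x l * (k0⁻¹ * k * k0) * (lc x l)⁻¹ * (k0⁻¹ * k * k0)⁻¹) * k0⁻¹ := by group
    rw [e]
    exact Gam_conj hk0 (Gam_comm_lc hlF (mul_mem (mul_mem (inv_mem hk0) hk) hk0))
  | one => intro k _; simp
  | mul a b ha _ iha ihb =>
    intro k hk
    have e : a * b * k * (a * b)⁻¹ * k⁻¹ =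
        (a * (b * k * b⁻¹ * k⁻¹) * a⁻¹) * (a * k * a⁻¹ * k⁻¹) := by group
    rw [e]
    exact mul_mem (Gam_conj (Gam_le hx j ha) (ihb k hk)) (iha k hk)
  | inv a ha iha =>
    intro k hk
    have e : a⁻¹ * k * a⁻¹⁻¹ * k⁻¹ = a⁻¹ * (a * k * a⁻¹ * k⁻¹)⁻¹ * a⁻¹⁻¹ := by group
    rw [e]
    exact Gam_conj (inv_mem (Gam_le hx j ha)) (inv_mem (iha k hk))

/-- no nontrivial abelian subgroup is normalised by an open subgroup -/
theorem no_abelian (h : Hyp H) (A T : Subgroup G) (hT : T.relIndex H ≠ 0)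
    (hab : ∀ a ∈ A, ∀ b ∈ A, a * b = b * a) (hn : ∀ t ∈ T, ∀ a ∈ A, t * a * t⁻¹ ∈ A) :
    A = ⊥ := by
  classical
  by_contra hA
  obtain ⟨A1, sA1, hA1⟩ := exists_stable h A T hT hab hn hA
  obtain ⟨x, hxA, hx1⟩ : ∃ a ∈ A1, a ≠ 1 := by
    by_contra hcon
    push Not at hcon
    exact hA1 ((eq_bot_iff_forall A1).2 hcon)
  have hxP : Pi H x := ⟨A1, sA1, hxA⟩
  obtain ⟨y, hyP, hy⟩ : ∃ y, Pi H y ∧ x * y * x⁻¹ * y⁻¹ ≠ 1 := by
    by_contra hcon
    push Not at hcon
    have h1 : x ∈ center G := by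
      rw [mem_center_iff]
      intro g
      have hle : closure {v | Pi H v} ≤ centralizer {x} := by
        rw [closure_le]
        intro v hv
        rw [SetLike.mem_coe, mem_centralizer_singleton_iff]
        have h2 := hcon v hv
        rw [mul_inv_eq_one, mul_inv_eq_iff_eq_mul] at h2
        exact h2.symm
      rw [pi_closure h hxP hx1] at hle
      exact mem_centralizer_singleton_iff.1 (hle (mem_top g))
    rw [center_bot h, mem_bot] at h1
    exact hx1 h1
  have hxF : x ∈ FN H (x * y * x⁻¹ * y⁻¹) := by rw [FN_top h hxP hx1 hy]; exact mem_top x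
  obtain ⟨F0, hF0, hxN⟩ := hxF
  let F : Finset G := insert x (insert y F0)
  have hxF : x ∈ F := Finset.mem_insert_self _ _
  have hyF : y ∈ F := Finset.mem_insert_of_mem (Finset.mem_insert_self _ _)
  have hF0F : (F0 : Set G) ⊆ (F : Set G) := by
    intro z hz
    exact Finset.mem_insert_of_mem (Finset.mem_insert_of_mem hz)
  have hFP : ∀ a ∈ F, Pi H a := by
    intro a ha
    rcases Finset.mem_insert.1 ha with rfl | ha
    · exact hxP
    rcases Finset.mem_insert.1 ha with rfl | ha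
    · exact hyP
    · exact hF0 a ha
  have hxK : x ∈ closure (F : Set G) := subset_closure hxF
  have hyK : y ∈ closure (F : Set G) := subset_closure hyF
  have hall : ∀ j, x ∈ Gam F x j := by
    intro j
    induction j with
    | zero => exact subset_closure ⟨1, one_mem _, [], rfl, by simp, by simp [lc]⟩
    | succ j ih =>
      have hc := Gam_comm hxK ih y hyK
      have hle : NC (F0 : Set G) (x * y * x⁻¹ * y⁻¹) ≤ Gam F x (j + 1) := by
        rw [NC, closure_le]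
        rintro _ ⟨k, hk, rfl⟩
        exact Gam_conj (closure_mono hF0F hk) hc
      exact hle hxN
  have hbot : Gam F x (F.card + 1) ≤ ⊥ := by
    rw [Gam, closure_le]
    rintro _ ⟨k, _, l, hl, hlF, rfl⟩
    rw [lc_vanish h F hFP x hxF l (fun a ha => Or.inl (hlF a ha)) (by omega)]
    simp
  exact hx1 (mem_bot.1 (hbot (hall _)))

/-- no nontrivial soluble subgroup is normalised by an open subgroup -/
theorem no_solvable (h : Hyp H) (L T : Subgroup G) (hT : T.relIndex H ≠ 0)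
    (hn : ∀ t ∈ T, ∀ a ∈ L, t * a * t⁻¹ ∈ L) (n : ℕ) (hL : D n L = ⊥) : L = ⊥ := by
  induction n with
  | zero => exact hL
  | succ n ih =>
    apply ih
    refine no_abelian h (D n L) T hT ?_ ?_
    · intro a ha b hb
      have h1 : ⁅a, b⁆ ∈ D (n + 1) L := by
        rw [D_succ]; exact commutator_mem_commutator ha hb
      rw [hL, mem_bot, commutatorElement_def, mul_inv_eq_one, mul_inv_eq_iff_eq_mul] at h1
      exact h1
    · intro t ht a ha
      exact conj_mem_D n (hn t ht) ha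

theorem D_of_solvable (L : Subgroup G) (hL : Group.IsSolvable L) : ∃ n, D n L = ⊥ := by
  obtain ⟨n, hn⟩ := hL
  exact ⟨n, by rw [← derived_map, hn, Subgroup.map_bot]⟩

end Pool.Agent.H98.BT
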