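import Mathlib
import Pool.Agent.H98.BT
import Pool.Agent.H98.BT2

set_option autoImplicit false

/-!
Torsion-free barely transitive groups: if a nontrivial subgroup is normalised by a subgroup
containing a finite-index subgroup of a point stabiliser, then its centraliser is trivial.
-/

namespace Pool.Agent.H98.BT

open Subgroup
open scoped commutatorElement

variable {G : Type*} [Group G] {H : Subgroup G}

/-- the conjugate subgroup -/
def cj (g : G) (A : Subgroup G) : Subgroup G := A.map (MulAut.conj g).toMonoidHom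

lemma mem_cj {g x : G} {A : Subgroup G} : x ∈ cj g A ↔ g⁻¹ * x * g ∈ A := by
  constructor
  · rintro ⟨a, ha, rfl⟩
    have e : g⁻¹ * (g * a * g⁻¹) * g = a := by group
    simp only [MulEquiv.coe_toMonoidHom, MulAut.conj_apply]
    rw [e]; exact ha
  · intro hx
    refine ⟨_, hx, ?_⟩
    simp only [MulEquiv.coe_toMonoidHom, MulAut.conj_apply]
    group

lemma cj_mem {g a : G} {A : Subgroup G} (ha : a ∈ A) : g * a * g⁻¹ ∈ cj g A := by
  rw [mem_cj]
  have e : g⁻¹ * (g * a * g⁻¹) * g = a := by group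
  rw [e]; exact ha

lemma mem_CA {A : Subgroup G} {g : G} :
    g ∈ CA H A ↔ ∃ W : Subgroup G, W.relIndex H ≠ 0 ∧ ∀ a ∈ A, a ∈ W → a * g = g * a := Iff.rfl

/-- proper subgroups normalised by an open subgroup -/
def LN (H A : Subgroup G) : Prop :=
  A ≠ ⊤ ∧ ∃ T : Subgroup G, T.relIndex H ≠ 0 ∧ ∀ t ∈ T, ∀ a ∈ A, t * a * t⁻¹ ∈ A

lemma exists_ne {A : Subgroup G} (hA : A ≠ ⊥) : ∃ a ∈ A, a ≠ 1 := by
  by_contra hcon
  push Not at hcon
  exact hA ((eq_bot_iff_forall A).2 hcon)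

lemma LN_inf {A B : Subgroup G} (hA : LN H A) (hB : LN H B) : LN H (A ⊓ B) := by
  obtain ⟨hA1, T, hT, hTn⟩ := hA
  obtain ⟨-, S, hS, hSn⟩ := hB
  refine ⟨fun h => hA1 (top_le_iff.1 (h ▸ inf_le_left)), T ⊓ S, relIndex_inf_ne_zero hT hS, ?_⟩
  intro t ht a ha
  exact ⟨hTn t ht.1 a ha.1, hSn t ht.2 a ha.2⟩

lemma LN_cj (h : Hyp H) {A : Subgroup G} (hA : LN H A) (g : G) : LN H (cj g A) := by
  obtain ⟨hA1, T, hT, hTn⟩ := hA
  refine ⟨?_, cj g T, conj_open h hT g, ?_⟩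
  · intro htop
    apply hA1
    rw [eq_top_iff']
    intro x
    have h1 : g * x * g⁻¹ ∈ cj g A := by rw [htop]; exact mem_top _
    rw [mem_cj] at h1
    have e : g⁻¹ * (g * x * g⁻¹) * g = x := by group
    rwa [e] at h1
  · intro t ht a ha
    rw [mem_cj] at ht ha ⊢
    have h1 := hTn _ ht _ ha
    have e : g⁻¹ * t * g * (g⁻¹ * a * g) * (g⁻¹ * t * g)⁻¹ = g⁻¹ * (t * a * t⁻¹) * g := by group
    rwa [e] at h1

lemma cj_ne_bot {A : Subgroup G} (hA : A ≠ ⊥) (g : G) : cj g A ≠ ⊥ := by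
  obtain ⟨a, ha, ha1⟩ := exists_ne hA
  intro hb
  have h1 := cj_mem (g := g) ha
  rw [hb, mem_bot] at h1
  exact ha1 (conj_eq_one_iff.1 h1)

lemma CA_anti {A B : Subgroup G} (hAB : A ≤ B) : CA H B ≤ CA H A := by
  rintro g ⟨W, hW, hg⟩
  exact ⟨W, hW, fun a ha haW => hg a (hAB ha) haW⟩

lemma CA_inf {A W : Subgroup G} (hW : W.relIndex H ≠ 0) : CA H (A ⊓ W) ≤ CA H A := by
  rintro g ⟨S, hS, hg⟩
  exact ⟨S ⊓ W, relIndex_inf_ne_zero hS hW, fun a ha haW => hg a ⟨ha, haW.2⟩ haW.1⟩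

lemma CA_norm (h : Hyp H) {A : Subgroup G} {g : G} (hg : ∀ a ∈ A, g⁻¹ * a * g ∈ A) {x : G}
    (hx : x ∈ CA H A) : g * x * g⁻¹ ∈ CA H A := by
  obtain ⟨W, hW, hWx⟩ := hx
  refine ⟨cj g W, conj_open h hW g, ?_⟩
  intro a ha haW
  rw [mem_cj] at haW
  have h1 := hWx _ (hg a ha) haW
  calc a * (g * x * g⁻¹) = g * ((g⁻¹ * a * g) * x) * g⁻¹ := by group
    _ = g * (x * (g⁻¹ * a * g)) * g⁻¹ := by rw [h1]
    _ = g * x * g⁻¹ * a := by group

lemma CA_cj_le (h : Hyp H) (A : Subgroup G) (g : G) : cj g (CA H A) ≤ CA H (cj g A) := by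
  intro x hx
  rw [mem_cj] at hx
  obtain ⟨W, hW, hWx⟩ := hx
  refine ⟨cj g W, conj_open h hW g, ?_⟩
  intro a ha haW
  rw [mem_cj] at ha haW
  have h1 := hWx _ ha haW
  calc a * x = g * ((g⁻¹ * a * g) * (g⁻¹ * x * g)) * g⁻¹ := by group
    _ = g * ((g⁻¹ * x * g) * (g⁻¹ * a * g)) * g⁻¹ := by rw [h1]
    _ = x * a := by group

lemma cj_inv_cj (A : Subgroup G) (g : G) : cj g⁻¹ (cj g A) = A := by
  ext x
  rw [mem_cj, mem_cj]
  have e : g⁻¹ * (g⁻¹⁻¹ * x * g⁻¹) * g = x := by group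
  rw [e]

lemma cj_mono {A B : Subgroup G} (hAB : A ≤ B) (g : G) : cj g A ≤ cj g B := by
  intro x hx
  rw [mem_cj] at hx ⊢
  exact hAB hx

lemma CA_cj (h : Hyp H) (A : Subgroup G) (g : G) : CA H (cj g A) = cj g (CA H A) := by
  apply le_antisymm _ (CA_cj_le h A g)
  intro x hx
  have h1 : g⁻¹ * x * g⁻¹⁻¹ ∈ cj g⁻¹ (CA H (cj g A)) := cj_mem hx
  have h2 := CA_cj_le h (cj g A) g⁻¹ h1
  rw [cj_inv_cj, inv_inv] at h2
  rw [mem_cj]
  exact h2

/-- Schur-type lemma: two elements which commute with a subgroup of finite index of the group they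
generate commute -/
lemma comm_of_relIndex (h : Hyp H) {S : Subgroup G} {a b : G}
    (hS : S.relIndex (closure ({a, b} : Set G)) ≠ 0)
    (ha : ∀ t ∈ S, t ∈ closure ({a, b} : Set G) → t * a = a * t)
    (hb : ∀ t ∈ S, t ∈ closure ({a, b} : Set G) → t * b = b * t) : a * b = b * a := by
  let K := closure ({a, b} : Set G)
  have haK : a ∈ K := subset_closure (by simp)
  have hbK : b ∈ K := subset_closure (by simp)
  have hcent : ∀ t ∈ S, t ∈ K → ∀ k ∈ K, t * k = k * t := by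
    intro t ht htK k hk
    have hle : K ≤ centralizer {t} := by
      refine (closure_le _).2 ?_
      rintro x hx
      rw [SetLike.mem_coe, mem_centralizer_singleton_iff]
      rcases hx with rfl | hx
      · exact (ha t ht htK).symm
      · rw [Set.mem_singleton_iff] at hx
        subst hx
        exact (hb t ht htK).symm
    exact (mem_centralizer_singleton_iff.1 (hle hk)).symm
  have hle : S.subgroupOf K ≤ center K := by
    intro t ht
    rw [mem_center_iff]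
    intro g
    apply Subtype.ext
    exact (hcent t (mem_subgroupOf.1 ht) t.2 g g.2).symm
  have hfin : (center K).index ≠ 0 := by
    intro h0
    have := index_dvd_of_le hle
    rw [h0, zero_dvd_iff] at this
    exact hS this
  have : FiniteIndex (center K) := ⟨hfin⟩
  let x : K := ⟨a, haK⟩
  let y : K := ⟨b, hbK⟩
  let τ := MonoidHom.transferCenterPow K
  have hc : τ x * τ y = τ y * τ x := Subtype.ext (mem_center_iff.1 (τ y).2 (τ x : K))
  have h1 : τ (x * y * x⁻¹ * y⁻¹) = 1 := by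
    rw [map_mul, map_mul, map_mul, map_inv, map_inv, hc, mul_assoc (τ y), mul_inv_cancel,
      mul_one, mul_inv_cancel]
  have h2 : (x * y * x⁻¹ * y⁻¹) ^ (center K).index = 1 := by
    have := congrArg (fun z : center K => (z : K)) h1
    simpa only [τ, MonoidHom.transferCenterPow_apply, OneMemClass.coe_one] using this
  have h3 : (a * b * a⁻¹ * b⁻¹) ^ (center K).index = 1 := by
    have := congrArg (fun z : K => (z : G)) h2
    simpa using this
  have h4 := h.tf _ _ (Nat.pos_of_ne_zero hfin) h3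
  rw [mul_inv_eq_one, mul_inv_eq_iff_eq_mul] at h4
  exact h4

/-- P1 -/
lemma LN_inf_CA (h : Hyp H) {A : Subgroup G} (hA : LN H A) : A ⊓ CA H A = ⊥ := by
  obtain ⟨hA1, T, hT, hTn⟩ := hA
  refine no_abelian h (A ⊓ CA H A) T hT ?_ ?_
  · rintro a ⟨ha, W, hW, haW⟩ b ⟨hb, W', hW', hbW⟩
    have hle : closure ({a, b} : Set G) ≤ A := by
      rw [closure_le]
      rintro x (rfl | hx)
      · exact ha
      · rw [Set.mem_singleton_iff] at hx
        subst hx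
        exact hb
    have hWW := relIndex_inf_ne_zero hW hW'
    refine comm_of_relIndex h (S := W ⊓ W') ?_ ?_ ?_
    · have h1 : (W ⊓ W').relIndex A ≠ 0 := relIndex_ne_zero_trans hWW (h.prop A hA1)
      exact fun h0 => h1 (relIndex_eq_zero_of_le_right hle h0)
    · exact fun t ht htK => haW t (hle htK) ht.1
    · exact fun t ht htK => hbW t (hle htK) ht.2
  · intro t ht a ha
    refine ⟨hTn t ht a ha.1, CA_norm h ?_ ha.2⟩
    intro b hb
    have := hTn t⁻¹ (inv_mem ht) b hb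
    rwa [inv_inv] at this

lemma CA_ne_top (h : Hyp H) {A : Subgroup G} (hA : LN H A) (hA1 : A ≠ ⊥) : CA H A ≠ ⊤ := by
  intro htop
  have := LN_inf_CA h hA
  rw [htop, inf_top_eq] at this
  exact hA1 this

lemma LN_CA (h : Hyp H) {A : Subgroup G} (hA : LN H A) (hA1 : A ≠ ⊥) : LN H (CA H A) := by
  refine ⟨CA_ne_top h hA hA1, ?_⟩
  obtain ⟨-, T, hT, hTn⟩ := hA
  refine ⟨T, hT, fun t ht a ha => CA_norm h ?_ ha⟩
  intro b hb
  have := hTn t⁻¹ (inv_mem ht) b hb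
  rwa [inv_inv] at this

/-- P3 -/
lemma le_CA_CA (h : Hyp H) {A : Subgroup G} (hA : LN H A) : A ≤ CA H (CA H A) := by
  have hA' := hA
  obtain ⟨-, T, hT, hTn⟩ := hA'
  intro u hu
  refine ⟨T, hT, fun v hv hvT => ?_⟩
  have h1 : u * v * u⁻¹ * v⁻¹ ∈ A ⊓ CA H A := by
    refine ⟨?_, ?_⟩
    · have e : u * v * u⁻¹ * v⁻¹ = u * (v * u⁻¹ * v⁻¹) := by group
      rw [e]
      exact mul_mem hu (hTn v hvT _ (inv_mem hu))
    · exact (CA H A).mul_mem (CA_norm h (fun a ha => mul_mem (mul_mem (inv_mem hu) ha) hu) hv)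
        ((CA H A).inv_mem hv)
  rw [LN_inf_CA h hA, mem_bot, mul_inv_eq_one, mul_inv_eq_iff_eq_mul] at h1
  exact h1.symm

/-- P4 -/
lemma le_CA_of_inf (h : Hyp H) {A B : Subgroup G} (hA : LN H A) (hB : LN H B)
    (hAB : A ⊓ B = ⊥) : B ≤ CA H A := by
  have hA' := hA
  have hB' := hB
  obtain ⟨-, TA, hTA, hnA⟩ := hA'
  obtain ⟨-, TB, hTB, hnB⟩ := hB'
  have hW : (TA ⊓ TB).relIndex H ≠ 0 := relIndex_inf_ne_zero hTA hTB
  have h1 : A ⊓ (TA ⊓ TB) ≤ CA H B := by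
    intro a ha
    refine ⟨TA ⊓ TB, hW, fun b hb hbW => ?_⟩
    have h2 : b * a * b⁻¹ * a⁻¹ ∈ A ⊓ B := by
      refine ⟨A.mul_mem (hnA b hbW.1 a ha.1) (A.inv_mem ha.1), ?_⟩
      have e : b * a * b⁻¹ * a⁻¹ = b * (a * b⁻¹ * a⁻¹) := by group
      rw [e]
      exact B.mul_mem hb (hnB a ha.2.2 _ (B.inv_mem hb))
    rw [hAB, mem_bot, mul_inv_eq_one, mul_inv_eq_iff_eq_mul] at h2
    exact h2
  calc B ≤ CA H (CA H B) := le_CA_CA h hB
    _ ≤ CA H (A ⊓ (TA ⊓ TB)) := CA_anti h1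
    _ ≤ CA H A := CA_inf hW

/-- P5 -/
lemma CA_CA_CA (h : Hyp H) {A : Subgroup G} (hA : LN H A) (hA1 : A ≠ ⊥) :
    CA H (CA H (CA H A)) = CA H A :=
  le_antisymm (CA_anti (le_CA_CA h hA)) (le_CA_CA h (LN_CA h hA hA1))

lemma gen_top (h : Hyp H) {A : Subgroup G} (hA : A ≠ ⊥) (S : Subgroup G)
    (hS : ∀ g, ∀ a ∈ A, g * a * g⁻¹ ∈ S) : S = ⊤ := by
  have hle : normalClosure (A : Set G) ≤ S := by
    rw [normalClosure, closure_le]
    intro x hx
    obtain ⟨a, ha, hax⟩ := Group.mem_conjugatesOfSet_iff.1 hx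
    obtain ⟨c, rfl⟩ := isConj_iff.1 hax
    exact hS c a ha
  rcases h.simple (normalClosure (A : Set G)) inferInstance with h1 | h1
  · exfalso
    obtain ⟨a, ha, ha1⟩ := exists_ne hA
    have h2 : a ∈ normalClosure (A : Set G) := subset_normalClosure ha
    rw [h1, mem_bot] at h2
    exact ha1 h2
  · rw [h1] at hle
    exact top_le_iff.1 hle

/-- the elements which normalise `A` -/
def Nm (A : Subgroup G) : Subgroup G where
  carrier := {g | ∀ y ∈ A, g * y * g⁻¹ ∈ A ∧ g⁻¹ * y * g ∈ A}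
  one_mem' := fun y hy => by simpa using hy
  mul_mem' := by
    intro a b ha hb y hy
    constructor
    · have h1 := (ha _ (hb y hy).1).1
      have e : a * b * y * (a * b)⁻¹ = a * (b * y * b⁻¹) * a⁻¹ := by group
      rw [e]; exact h1
    · have h1 := (hb _ (ha y hy).2).2
      have e : (a * b)⁻¹ * y * (a * b) = b⁻¹ * (a⁻¹ * y * a) * b := by group
      rw [e]; exact h1
  inv_mem' := by
    intro a ha y hy
    rw [inv_inv]
    exact ⟨(ha y hy).2, (ha y hy).1⟩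

lemma mem_Nm {A : Subgroup G} {g : G} :
    g ∈ Nm A ↔ ∀ y ∈ A, g * y * g⁻¹ ∈ A ∧ g⁻¹ * y * g ∈ A := Iff.rfl

lemma Nm_of_subgroup {A S : Subgroup G} (hS : ∀ s ∈ S, ∀ y ∈ A, s * y * s⁻¹ ∈ A) : S ≤ Nm A := by
  intro s hs y hy
  refine ⟨hS s hs y hy, ?_⟩
  have := hS s⁻¹ (inv_mem hs) y hy
  rwa [inv_inv] at this

/-- there are no atoms -/
lemma not_atom (h : Hyp H) {V : Subgroup G} (hV : LN H V) (hV1 : V ≠ ⊥) (hV2 : CA H V ≠ ⊥) :
    ∃ U : Subgroup G, LN H U ∧ U ≠ ⊥ ∧ U ≤ V ∧ V ⊓ CA H U ≠ ⊥ := by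
  by_contra hcon
  push Not at hcon
  have lC : LN H (CA H V) := LN_CA h hV hV1
  have lCC : LN H (CA H (CA H V)) := LN_CA h lC hV2
  have hVt : V ≤ CA H (CA H V) := le_CA_CA h hV
  have hCC1 : CA H (CA H V) ≠ ⊥ := fun h0 => hV1 (le_bot_iff.1 (h0 ▸ hVt))
  have main : ∀ g : G, ∀ w ∈ CA H (CA H V), ∀ x ∈ cj g (CA H (CA H V)),
      w * x * w⁻¹ ∈ cj g (CA H (CA H V)) := by
    intro g
    have lB : LN H (cj g (CA H (CA H V))) := LN_cj h lCC g
    have hB1 : cj g (CA H (CA H V)) ≠ ⊥ := cj_ne_bot hCC1 g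
    have hBB : CA H (CA H (cj g (CA H (CA H V)))) = cj g (CA H (CA H V)) := by
      rw [CA_cj h, CA_cj h, CA_CA_CA h lC hV2]
    by_cases hVB : V ⊓ cj g (CA H (CA H V)) = ⊥
    · -- `V ≤ CA B`
      have h1 : V ≤ CA H (cj g (CA H (CA H V))) :=
        le_CA_of_inf h lB hV (by rw [inf_comm]; exact hVB)
      have h2 : CA H (CA H V) ≤ CA H (cj g (CA H (CA H V))) := by
        have h3 := CA_anti (H := H) (CA_anti (H := H) h1)
        rwa [CA_CA_CA h lB hB1] at h3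
      intro w hw x hx
      rw [← hBB] at hx ⊢
      refine CA_norm h ?_ hx
      intro a ha
      exact mul_mem (mul_mem (inv_mem (h2 hw)) ha) (h2 hw)
    · have h1 := hcon (V ⊓ cj g (CA H (CA H V))) (LN_inf hV lB) hVB inf_le_left
      have lU := LN_CA h (LN_inf hV lB) hVB
      have h2 : V ≤ CA H (CA H (V ⊓ cj g (CA H (CA H V)))) :=
        le_CA_of_inf h lU hV (by rw [inf_comm]; exact h1)
      have h3 : V ≤ cj g (CA H (CA H V)) := by
        have h2' : CA H (CA H (V ⊓ cj g (CA H (CA H V)))) ≤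
            CA H (CA H (cj g (CA H (CA H V)))) := CA_anti (CA_anti inf_le_right)
        rw [hBB] at h2'
        exact h2.trans h2'
      have h4 : CA H (CA H V) ≤ cj g (CA H (CA H V)) := by
        have h5 := CA_anti (H := H) (CA_anti (H := H) h3)
        rwa [hBB] at h5
      intro w hw x hx
      exact mul_mem (mul_mem (h4 hw) hx) (inv_mem (h4 hw))
  have hN : Nm (CA H (CA H V)) = ⊤ := by
    refine gen_top h hCC1 _ ?_
    intro g a ha
    have key : ∀ g : G, ∀ a ∈ CA H (CA H V), ∀ y ∈ CA H (CA H V),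
        (g * a * g⁻¹) * y * (g * a * g⁻¹)⁻¹ ∈ CA H (CA H V) := by
      intro g a ha y hy
      have h1 := main g⁻¹ a ha _ (cj_mem (g := g⁻¹) hy)
      rw [mem_cj] at h1
      have e : g⁻¹⁻¹ * (a * (g⁻¹ * y * g⁻¹⁻¹) * a⁻¹) * g⁻¹ =
        (g * a * g⁻¹) * y * (g * a * g⁻¹)⁻¹ := by group
      rwa [e] at h1
    intro y hy
    refine ⟨key g a ha y hy, ?_⟩
    have h1 := key g a⁻¹ (inv_mem ha) y hy
    have e : (g * a⁻¹ * g⁻¹) * y * (g * a⁻¹ * g⁻¹)⁻¹ =
      (g * a * g⁻¹)⁻¹ * y * (g * a * g⁻¹) := by group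
    rwa [e] at h1
  have hnorm : (CA H (CA H V)).Normal := by
    constructor
    intro y hy g
    have h1 : g ∈ Nm (CA H (CA H V)) := by rw [hN]; exact mem_top g
    exact (h1 y hy).1
  rcases h.simple _ hnorm with h1 | h1
  · exact hCC1 h1
  · exact lCC.1 h1

/-- the uniform bound -/
lemma exists_bound (h : Hyp H) {V1 : Subgroup G} (hV : LN H V1) (hV1 : V1 ≠ ⊥) {g0 : G}
    (hg0 : V1 ⊓ cj g0 V1 = ⊥) : ∃ (V : Subgroup G) (n : ℕ), LN H V ∧ V ≠ ⊥ ∧ V ≤ V1 ∧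
      ∀ P : Subgroup G, LN H P → P ≠ ⊥ → P ≤ V → H.relIndex (CA H P) ≤ n := by
  by_contra hcon
  push Not at hcon
  let Y := {V : Subgroup G // LN H V ∧ V ≠ ⊥ ∧ V ≤ V1}
  have hstep : ∀ (V : Y) (n : ℕ), ∃ P : Y, P.1 ≤ V.1 ∧ n < H.relIndex (CA H P.1) := by
    rintro ⟨V, h1, h2, h3⟩ n
    obtain ⟨P, hP1, hP2, hP3, hP4⟩ := hcon V n h1 h2 h3
    exact ⟨⟨P, hP1, hP2, hP3.trans h3⟩, hP3, hP4⟩
  choose f hf1 hf2 using hstep
  let s : ℕ → Y := fun n => Nat.rec ⟨V1, hV, hV1, le_rfl⟩ (fun n V => f V n) n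
  have hs : ∀ n, s (n + 1) = f (s n) n := fun n => rfl
  have hmono : Monotone fun n => CA H (s n).1 := by
    refine monotone_nat_of_le_succ fun n => ?_
    rw [hs]
    exact CA_anti (hf1 _ _)
  have hN : (⨆ n, CA H (s n).1) ≠ ⊤ := by
    intro htop
    have h1 : g0 ∈ ⨆ n, CA H (s n).1 := by rw [htop]; exact mem_top g0
    rw [mem_iSup_of_directed hmono.directed_le] at h1
    obtain ⟨n, W, hW, hg⟩ := h1
    obtain ⟨l1, l2, l3⟩ := (s n).2
    obtain ⟨a, ha, ha1⟩ := exists_ne l2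
    obtain ⟨e, he, hae⟩ := pow_mem_open h l1.1 hW ha
    have h2 := hg _ (pow_mem ha e) hae
    have h3 : a ^ e ∈ V1 ⊓ cj g0 V1 := by
      refine ⟨l3 (pow_mem ha e), ?_⟩
      show a ^ e ∈ cj g0 V1
      rw [mem_cj, mul_assoc, h2, inv_mul_cancel_left]
      exact l3 (pow_mem ha e)
    rw [hg0, mem_bot] at h3
    exact ha1 (h.tf _ _ he h3)
  have hfin := h.prop _ hN
  have h4 := hf2 (s (H.relIndex (⨆ n, CA H (s n).1))) (H.relIndex (⨆ n, CA H (s n).1))
  rw [← hs] at h4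
  have h5 : H.relIndex (CA H (s (H.relIndex (⨆ n, CA H (s n).1) + 1)).1) ≤
      H.relIndex (⨆ n, CA H (s n).1) :=
    relIndex_le_of_le_right
      (le_iSup (fun n => CA H (s n).1) (H.relIndex (⨆ n, CA H (s n).1) + 1)) hfin
  omega

/-- if `H` meets all conjugates of `U` in subgroups of bounded index then `U` is trivial -/
lemma bounded_bot (h : Hyp H) (hH : H ≠ ⊤) {U : Subgroup G} (n : ℕ)
    (hU : ∀ g : G, H.relIndex (cj g U) ≠ 0 ∧ H.relIndex (cj g U) ≤ n) : U = ⊥ := by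
  have hcore : H.normalCore = ⊥ := by
    rcases h.simple H.normalCore inferInstance with h1 | h1
    · exact h1
    · exact absurd (top_le_iff.1 (h1 ▸ H.normalCore_le)) hH
  rw [eq_bot_iff_forall]
  intro u hu
  have h1 : u ^ n.factorial ∈ H.normalCore := by
    intro b
    rw [← conj_pow]
    refine (pow_mem_of_relIndex_ne_zero_of_dvd (hU b).1 (cj_mem (g := b) hu) ?_).1
    intro m hm hle
    exact Nat.dvd_factorial hm (hle.trans (hU b).2)
  rw [hcore, mem_bot] at h1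
  exact h.tf _ _ (Nat.factorial_pos n) h1

/-- main theorem: two nontrivial locally normal subgroups do not commute locally -/
theorem CA_bot (h : Hyp H) (hH : H ≠ ⊤) {A : Subgroup G} (hA : LN H A) (hA1 : A ≠ ⊥) :
    CA H A = ⊥ := by
  by_contra hC
  have lC : LN H (CA H A) := LN_CA h hA hA1
  have lCC : LN H (CA H (CA H A)) := LN_CA h lC hC
  -- Step 1
  obtain ⟨g, hg⟩ : ∃ g : G, cj g A ⊓ CA H A ≠ ⊥ := by
    by_contra hcon
    push Not at hcon
    refine lCC.1 (gen_top h hA1 _ ?_)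
    intro g a ha
    exact le_CA_of_inf h lC (LN_cj h hA g) (by rw [inf_comm]; exact hcon g) (cj_mem ha)
  have lV1 : LN H (cj g A ⊓ CA H A) := LN_inf (LN_cj h hA g) lC
  have hdisj : (cj g A ⊓ CA H A) ⊓ cj g⁻¹ (cj g A ⊓ CA H A) = ⊥ := by
    rw [eq_bot_iff, ← LN_inf_CA h hA]
    rintro x ⟨hx1, hx2⟩
    refine ⟨?_, hx1.2⟩
    have h1 := cj_mono (inf_le_left : cj g A ⊓ CA H A ≤ cj g A) g⁻¹ hx2
    rwa [cj_inv_cj] at h1
  have hACA : A ≤ CA H (cj g A ⊓ CA H A) := (le_CA_CA h hA).trans (CA_anti inf_le_right)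
  -- Step 2
  obtain ⟨V, n, lV, hV1, hVle, hbd⟩ := exists_bound h lV1 hg hdisj
  have hV2 : CA H V ≠ ⊥ := by
    intro h0
    have : A ≤ CA H V := hACA.trans (CA_anti hVle)
    rw [h0, le_bot_iff] at this
    exact hA1 this
  -- Step 3
  obtain ⟨U, lU, hU1, hUV, hVU⟩ := not_atom h lV hV1 hV2
  obtain ⟨k, hk⟩ : ∃ k : G, V ⊓ CA H (cj k U) = ⊥ := by
    by_contra hcon
    push Not at hcon
    apply hU1
    refine bounded_bot h hH n fun k => ?_
    have lk : LN H (cj k U) := LN_cj h lU k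
    have hk1 : cj k U ≠ ⊥ := cj_ne_bot hU1 k
    have lP : LN H (V ⊓ CA H (cj k U)) := LN_inf lV (LN_CA h lk hk1)
    have h1 : cj k U ≤ CA H (V ⊓ CA H (cj k U)) := (le_CA_CA h lk).trans (CA_anti inf_le_right)
    refine ⟨h.prop _ lk.1, ?_⟩
    exact (relIndex_le_of_le_right h1 (h.prop _ (CA_ne_top h lP (hcon k)))).trans
      (hbd _ lP (hcon k) inf_le_left)
  have lk : LN H (cj k U) := LN_cj h lU k
  have hk1 : cj k U ≠ ⊥ := cj_ne_bot hU1 k
  have hVk : V ≤ CA H (CA H (cj k U)) :=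
    le_CA_of_inf h (LN_CA h lk hk1) lV (by rw [inf_comm]; exact hk)
  have hsub : CA H (CA H V) ≤ cj k (CA H (CA H U)) := by
    have h1 := CA_anti (H := H) (CA_anti (H := H) hVk)
    rwa [CA_CA_CA h lk hk1, CA_cj h, CA_cj h] at h1
  have hUV' : CA H (CA H U) ≤ CA H (CA H V) := CA_anti (CA_anti hUV)
  have hiter : ∀ j : ℕ, ∀ x ∈ CA H (CA H V), (k ^ (j + 1))⁻¹ * x * k ^ (j + 1) ∈
      CA H (CA H U) := by
    intro j
    induction j with
    | zero =>
      intro x hx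
      have h1 := hsub hx
      rw [mem_cj] at h1
      simpa using h1
    | succ j ih =>
      intro x hx
      have h1 := hsub hx
      rw [mem_cj] at h1
      have h2 := ih _ (hUV' h1)
      have e : (k ^ (j + 1))⁻¹ * (k⁻¹ * x * k) * k ^ (j + 1) =
          (k ^ (j + 1 + 1))⁻¹ * x * k ^ (j + 1 + 1) := by
        rw [pow_succ' k (j + 1)]; group
      rwa [e] at h2
  obtain ⟨-, T, hT, hTn⟩ := LN_CA h (LN_CA h lV hV1) hV2
  have hz : zpowers k ≠ ⊤ := by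
    refine comm_ne_top h ?_
    intro a ha b hb
    obtain ⟨i, rfl⟩ := mem_zpowers_iff.1 ha
    obtain ⟨j, rfl⟩ := mem_zpowers_iff.1 hb
    exact zpow_mul_comm k i j
  obtain ⟨e, he, hke⟩ := pow_mem_open h hz hT (mem_zpowers k)
  obtain ⟨j, rfl⟩ := Nat.exists_eq_succ_of_ne_zero he.ne'
  apply hVU
  rw [eq_bot_iff, ← LN_inf_CA h (LN_CA h lU hU1)]
  rintro x ⟨hx1, hx2⟩
  refine ⟨hx2, ?_⟩
  have hx3 : x ∈ CA H (CA H V) := le_CA_CA h lV hx1
  have h1 := hiter j _ (hTn _ hke x hx3)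
  have e : (k ^ (j + 1))⁻¹ * (k ^ (j + 1) * x * (k ^ (j + 1))⁻¹) * k ^ (j + 1) = x := by group
  rw [e] at h1
  exact h1

/-- the centraliser of a nontrivial subgroup normalised by an open subgroup is trivial -/
theorem centralizer_eq_bot (h : Hyp H) (hH : H ≠ ⊤) (L T : Subgroup G) (hT : T.relIndex H ≠ 0)
    (hn : ∀ t ∈ T, ∀ a ∈ L, t * a * t⁻¹ ∈ L) (hL : L ≠ ⊥) : centralizer (L : Set G) = ⊥ := by
  by_cases hLt : L = ⊤
  · rw [hLt, coe_top, centralizer_univ, center_bot h]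
  · rw [eq_bot_iff, ← CA_bot h hH ⟨hLt, T, hT, hn⟩ hL]
    intro g hg
    exact ⟨⊤, by rw [relIndex_top_left]; exact one_ne_zero,
      fun a ha _ => mem_centralizer_iff.1 hg a ha⟩

/-- two nontrivial subgroups normalised by an open subgroup intersect nontrivially -/
theorem inf_ne_bot (h : Hyp H) (hH : H ≠ ⊤) (L M T : Subgroup G) (hT : T.relIndex H ≠ 0)
    (hL : ∀ t ∈ T, ∀ a ∈ L, t * a * t⁻¹ ∈ L) (hM : ∀ t ∈ T, ∀ a ∈ M, t * a * t⁻¹ ∈ M)
    (hL1 : L ≠ ⊥) (hM1 : M ≠ ⊥) : L ⊓ M ≠ ⊥ := by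
  by_cases hLt : L = ⊤
  · rw [hLt, top_inf_eq]; exact hM1
  by_cases hMt : M = ⊤
  · rw [hMt, inf_top_eq]; exact hL1
  intro h0
  have h1 := le_CA_of_inf h ⟨hLt, T, hT, hL⟩ ⟨hMt, T, hT, hM⟩ h0
  rw [CA_bot h hH ⟨hLt, T, hT, hL⟩ hL1, le_bot_iff] at h1
  exact hM1 h1

end Pool.Agent.H98.BT
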