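import Mathlib
import Pool.Agent.H98.BT
import Pool.Agent.H98.BT2
import Pool.Agent.H98.BT3

set_option autoImplicit false

/-!
Torsion-free barely transitive groups: passage to subgroups of finite index of subgroups normalised
by an open subgroup.
-/

namespace Pool.Agent.H98.BT

open Subgroup

variable {G : Type*} [Group G] {H : Subgroup G}

/-- the subgroup generated by the `n`-th powers of the elements of `L` -/
def Pw (n : ℕ) (L : Subgroup G) : Subgroup G := closure {y | ∃ x ∈ L, y = x ^ n}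

lemma Pw_norm {n : ℕ} {L T : Subgroup G} (hn : ∀ t ∈ T, ∀ a ∈ L, t * a * t⁻¹ ∈ L) :
    ∀ t ∈ T, ∀ a ∈ Pw n L, t * a * t⁻¹ ∈ Pw n L := by
  intro t ht a ha
  have hle : Pw n L ≤ (Pw n L).comap (MulAut.conj t).toMonoidHom := by
    conv_lhs => rw [Pw]
    rw [closure_le]
    rintro _ ⟨x, hx, rfl⟩
    refine subset_closure ⟨t * x * t⁻¹, hn t ht x hx, ?_⟩
    simp only [MulEquiv.coe_toMonoidHom, MulAut.conj_apply, conj_pow]
  exact hle ha

lemma Pw_ne_bot (h : Hyp H) {n : ℕ} (hn : 0 < n) {L : Subgroup G} (hL : L ≠ ⊥) : Pw n L ≠ ⊥ := by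
  obtain ⟨a, ha, ha1⟩ := exists_ne hL
  intro h0
  have h1 : a ^ n ∈ Pw n L := subset_closure ⟨a, ha, rfl⟩
  rw [h0, mem_bot] at h1
  exact ha1 (h.tf _ _ hn h1)

/-- a subgroup of finite index of `L` contains a nontrivial subgroup normalised by everything that
normalises `L` -/
lemma exists_Pw (h : Hyp H) {L S : Subgroup G} (hL : L ≠ ⊥) (hS : S.relIndex L ≠ 0) :
    ∃ n : ℕ, Pw n L ≤ S ∧ Pw n L ≠ ⊥ := by
  refine ⟨(S.relIndex L).factorial, ?_, Pw_ne_bot h (Nat.factorial_pos _) hL⟩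
  rw [Pw, closure_le]
  rintro _ ⟨x, hx, rfl⟩
  exact (pow_mem_of_relIndex_ne_zero_of_dvd hS hx
    (fun m hm hle => Nat.dvd_factorial hm hle)).1

theorem centralizer_finite_index (h : Hyp H) (hH : H ≠ ⊤) (L S T : Subgroup G)
    (hT : T.relIndex H ≠ 0) (hn : ∀ t ∈ T, ∀ a ∈ L, t * a * t⁻¹ ∈ L) (hL : L ≠ ⊥)
    (hS : S.relIndex L ≠ 0) : centralizer (S : Set G) = ⊥ := by
  obtain ⟨n, h1, h2⟩ := exists_Pw h hL hS
  rw [eq_bot_iff, ← centralizer_eq_bot h hH (Pw n L) T hT (Pw_norm hn) h2]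
  exact centralizer_le h1

theorem not_solvable_finite_index (h : Hyp H) (L S T : Subgroup G)
    (hT : T.relIndex H ≠ 0) (hn : ∀ t ∈ T, ∀ a ∈ L, t * a * t⁻¹ ∈ L) (hL : L ≠ ⊥)
    (hS : S.relIndex L ≠ 0) : ¬ Group.IsSolvable S := by
  intro hs
  obtain ⟨n, h1, h2⟩ := exists_Pw h hL hS
  obtain ⟨m, hm⟩ := D_of_solvable S hs
  refine h2 (no_solvable h (Pw n L) T hT (Pw_norm hn) m ?_)
  rw [eq_bot_iff, ← hm]
  exact D_mono m h1

end Pool.Agent.H98.BT
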