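import Mathlib
import Pool.Agent.H98.BT
import Pool.Agent.H98.BT2
import Pool.Agent.H98.BT3
import Pool.Agent.H98.BT4

set_option autoImplicit false

/-!
Torsion-free barely transitive groups: no nontrivial abelian subgroup of finite rank is normalised
by a nontrivial subgroup which is itself normalised by an open subgroup.
-/

namespace Pool.Agent.H98.BT

open Subgroup

lemma finrank_lt {M : Type*} [AddCommGroup M] (hM : Module.rank ℤ M < Cardinal.aleph0)
    (N' N : Submodule ℤ M) (hle : N' ≤ N) (hne : N' ≠ N)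
    (hiso : ∀ x ∈ N, ∀ k : ℤ, k ≠ 0 → k • x ∈ N' → x ∈ N') :
    Module.finrank ℤ N' < Module.finrank ℤ N := by
  have h1 := rank_quotient_add_rank_of_isDomain (N'.submoduleOf N)
  have h2 : Module.rank ℤ (N'.submoduleOf N) = Module.rank ℤ N' :=
    (Submodule.submoduleOfEquivOfLe hle).rank_eq
  have hN : Module.rank ℤ N < Cardinal.aleph0 := (Submodule.rank_le N).trans_lt hM
  have hN' : Module.rank ℤ N' < Cardinal.aleph0 := (Submodule.rank_le N').trans_lt hM
  have h3 : Module.rank ℤ (N ⧸ N'.submoduleOf N) ≠ 0 := by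
    intro h0
    rw [rank_eq_zero_iff] at h0
    obtain ⟨x, hx, hx'⟩ := SetLike.exists_of_lt (lt_of_le_of_ne hle hne)
    obtain ⟨k, hk, hkx⟩ := h0 (Submodule.Quotient.mk ⟨x, hx⟩)
    rw [← Submodule.Quotient.mk_smul, Submodule.Quotient.mk_eq_zero] at hkx
    exact hx' (hiso x hx k hk hkx)
  rw [h2] at h1
  obtain ⟨n, hn⟩ := Cardinal.lt_aleph0.1 hN
  obtain ⟨n', hn'⟩ := Cardinal.lt_aleph0.1 hN'
  have h4 : Module.rank ℤ (N ⧸ N'.submoduleOf N) < Cardinal.aleph0 := by
    refine lt_of_le_of_lt ?_ hN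
    rw [← h1]
    exact le_self_add
  obtain ⟨q, hq⟩ := Cardinal.lt_aleph0.1 h4
  rw [hq, hn, hn'] at h1
  rw [hq] at h3
  rw [Module.finrank_eq_of_rank_eq hn, Module.finrank_eq_of_rank_eq hn']
  have h5 : q + n' = n := by exact_mod_cast h1
  have h6 : q ≠ 0 := by
    intro h0
    exact h3 (by rw [h0]; simp)
  omega

variable {G : Type*} [Group G] {H : Subgroup G}

/-- finite torsion-free rank of an abelian subgroup, in elementary terms -/
def FinRank (A : Subgroup G) : Prop :=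
  ∃ F : Finset G, (∀ f ∈ F, f ∈ A) ∧ ∀ a ∈ A, ∃ k : ℕ, 0 < k ∧ a ^ k ∈ closure (F : Set G)

/-- the minimal choice -/
lemma exists_min {A : Subgroup G} (hab : ∀ a ∈ A, ∀ b ∈ A, a * b = b * a)
    (hF : FinRank A) (Q : Subgroup G → Prop) {B0 : Subgroup G} (hB0 : B0 ≤ A) (hQ : Q B0) :
    ∃ B : Subgroup G, B ≤ A ∧ Q B ∧ ∀ P : Subgroup G, P ≤ B → Q P →
      (∀ x ∈ B, ∀ k : ℕ, 0 < k → x ^ k ∈ P → x ∈ P) → P = B := by
  classical
  let _ : CommGroup A := { (inferInstance : Group A) with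
    mul_comm := fun a b => Subtype.ext (hab a a.2 b b.2) }
  let N : Subgroup G → Submodule ℤ (Additive A) := fun P =>
    AddSubgroup.toIntSubmodule (Subgroup.toAddSubgroup (P.subgroupOf A))
  have hmem : ∀ (P : Subgroup G) (x : A), Additive.ofMul x ∈ N P ↔ (x : G) ∈ P := by
    intro P x
    exact Iff.rfl
  -- finite rank
  have hrank : Module.rank ℤ (Additive A) < Cardinal.aleph0 := by
    obtain ⟨F, hFA, hFk⟩ := hF
    let S : Finset (Additive A) := F.attach.image fun f => Additive.ofMul ⟨f.1, hFA f.1 f.2⟩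
    have h1 := rank_quotient_add_rank_of_isDomain (Submodule.span ℤ (S : Set (Additive A)))
    have h2 : Module.rank ℤ (Additive A ⧸ Submodule.span ℤ (S : Set (Additive A))) = 0 := by
      rw [rank_eq_zero_iff]
      intro x
      obtain ⟨x, rfl⟩ := Submodule.Quotient.mk_surjective _ x
      obtain ⟨k, hk, hkx⟩ := hFk (Additive.toMul x : A) (Additive.toMul x : A).2
      refine ⟨k, by exact_mod_cast hk.ne', ?_⟩
      rw [← Submodule.Quotient.mk_smul, Submodule.Quotient.mk_eq_zero]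
      have hle : closure (F : Set G) ≤
          (AddSubgroup.toSubgroup'
            (Submodule.span ℤ (S : Set (Additive A))).toAddSubgroup : Subgroup A).map
            A.subtype := by
        rw [closure_le]
        intro f hf
        refine ⟨⟨f, hFA f hf⟩, ?_, rfl⟩
        show Additive.ofMul (⟨f, hFA f hf⟩ : A) ∈ Submodule.span ℤ (S : Set (Additive A))
        exact Submodule.subset_span (Finset.mem_coe.2
          (Finset.mem_image.2 ⟨⟨f, hf⟩, Finset.mem_attach _ _, rfl⟩))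
      obtain ⟨y, hy, hyx⟩ := hle hkx
      have h3 : y = (Additive.toMul x : A) ^ k := Subtype.ext (by simpa using hyx)
      have h4 : Additive.ofMul y = (k : ℤ) • x := by
        rw [h3]
        simp
      rw [← h4]
      exact hy
    rw [h2, zero_add] at h1
    rw [← h1]
    exact (rank_span_finset_le S).trans_lt Cardinal.natCast_lt_aleph0
  have hex : ∃ n : ℕ, ∃ B : Subgroup G, B ≤ A ∧ Q B ∧ Module.finrank ℤ (N B) = n :=
    ⟨_, B0, hB0, hQ, rfl⟩
  obtain ⟨B, hBA, hQB, hBn⟩ := Nat.find_spec hex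
  refine ⟨B, hBA, hQB, ?_⟩
  intro P hPB hQP hiso
  by_contra hne
  have hlt : Module.finrank ℤ (N P) < Module.finrank ℤ (N B) := by
    refine finrank_lt hrank (N P) (N B) ?_ ?_ ?_
    · intro x hx
      exact hPB hx
    · intro he
      apply hne
      refine le_antisymm hPB ?_
      intro b hb
      have h1 : Additive.ofMul (⟨b, hBA hb⟩ : A) ∈ N B := hb
      rw [← he] at h1
      exact h1
    · intro x hx k hk hkx
      have h1 : ((Additive.toMul x : A) : G) ^ k ∈ P := by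
        have h2 : ((Additive.toMul (k • x) : A) : G) ∈ P := hkx
        simpa using h2
      have h3 : ((Additive.toMul x : A) : G) ^ k.natAbs ∈ P := by
        rcases Int.natAbs_eq k with he | he
        · rw [← zpow_natCast, ← he]; exact h1
        · rw [← zpow_natCast]
          have h4 := inv_mem h1
          rw [← zpow_neg] at h4
          have h5 : -k = (k.natAbs : ℤ) := by omega
          rwa [h5] at h4
      exact hiso _ hx _ (Int.natAbs_pos.2 hk) h3
  rw [hBn] at hlt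
  exact Nat.find_min hex hlt ⟨P, hPB.trans hBA, hQP, rfl⟩

/-- no nontrivial abelian subgroup of finite rank is normalised by a nontrivial subgroup which is
normalised by an open subgroup -/
theorem no_finrank_abelian (h : Hyp H) (hH : H ≠ ⊤) {A L : Subgroup G} (hL : LN H L)
    (hL1 : L ≠ ⊥) (hab : ∀ a ∈ A, ∀ b ∈ A, a * b = b * a) (hF : FinRank A)
    (hn : ∀ l ∈ L, ∀ a ∈ A, l * a * l⁻¹ ∈ A) : A = ⊥ := by
  by_contra hA
  have hL' := hL
  obtain ⟨-, T, hT, hTn⟩ := hL'
  have hTn' : ∀ t ∈ T, ∀ a ∈ L, t⁻¹ * a * t ∈ L := by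
    intro t ht a ha
    have := hTn t⁻¹ (inv_mem ht) a ha
    rwa [inv_inv] at this
  -- `A ⊓ L` is not trivial
  have hAL : A ⊓ L ≠ ⊥ := by
    intro h0
    obtain ⟨a, ha, ha1⟩ := exists_ne hA
    obtain ⟨e, he, hae⟩ := pow_mem_open h (comm_ne_top h hab) hT ha
    have h1 : a ^ e ∈ CA H L := by
      refine ⟨⊤, by rw [relIndex_top_left]; exact one_ne_zero, fun l hl _ => ?_⟩
      have h2 : l * a ^ e * l⁻¹ * (a ^ e)⁻¹ ∈ A ⊓ L := by
        refine ⟨A.mul_mem (hn l hl _ (pow_mem ha e)) (A.inv_mem (pow_mem ha e)), ?_⟩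
        have e1 : l * a ^ e * l⁻¹ * (a ^ e)⁻¹ = l * (a ^ e * l⁻¹ * (a ^ e)⁻¹) := by group
        rw [e1]
        exact L.mul_mem hl (hTn _ hae _ (inv_mem hl))
      rw [h0, mem_bot, mul_inv_eq_one, mul_inv_eq_iff_eq_mul] at h2
      exact h2
    rw [CA_bot h hH hL hL1, mem_bot] at h1
    exact ha1 (h.tf _ _ he h1)
  obtain ⟨B, hBA, ⟨hB1, hBL, hBn⟩, hmin⟩ := exists_min hab hF
    (fun B => B ≠ ⊥ ∧ B ≤ L ∧ ∀ l ∈ L, ∀ b ∈ B, l * b * l⁻¹ ∈ B) (B0 := A ⊓ L) inf_le_left
    ⟨hAL, inf_le_right, fun l hl b hb =>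
      ⟨hn l hl b hb.1, L.mul_mem (L.mul_mem hl hb.2) (L.inv_mem hl)⟩⟩
  have habB : ∀ a ∈ B, ∀ b ∈ B, a * b = b * a := fun a ha b hb => hab a (hBA ha) b (hBA hb)
  have key : ∀ s ∈ T, ∀ b ∈ B, ∀ c ∈ cj s B, c * b = b * c := by
    intro s hs
    have hcL : cj s B ≤ L := by
      intro c hc
      rw [mem_cj] at hc
      have h1 := hTn s hs _ (hBL hc)
      have e : s * (s⁻¹ * c * s) * s⁻¹ = c := by group
      rwa [e] at h1
    have hcab : ∀ c ∈ cj s B, ∀ d ∈ cj s B, c * d = d * c := by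
      intro c hc d hd
      rw [mem_cj] at hc hd
      have h1 := habB _ hc _ hd
      calc c * d = s * ((s⁻¹ * c * s) * (s⁻¹ * d * s)) * s⁻¹ := by group
        _ = s * ((s⁻¹ * d * s) * (s⁻¹ * c * s)) * s⁻¹ := by rw [h1]
        _ = d * c := by group
    have hcn : ∀ l ∈ L, ∀ c ∈ cj s B, l * c * l⁻¹ ∈ cj s B := by
      intro l hl c hc
      rw [mem_cj] at hc ⊢
      have h1 := hBn _ (hTn' s hs l hl) _ hc
      have e : s⁻¹ * l * s * (s⁻¹ * c * s) * (s⁻¹ * l * s)⁻¹ = s⁻¹ * (l * c * l⁻¹) * s := by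
        group
      rwa [e] at h1
    have hP : B ⊓ centralizer (cj s B : Set G) = B := by
      refine hmin _ inf_le_left ⟨?_, inf_le_left.trans hBL, ?_⟩ ?_
      · by_cases hI : B ⊓ cj s B = ⊥
        · obtain ⟨b, hb, hb1⟩ := exists_ne hB1
          intro h0
          have h1 : b ∈ B ⊓ centralizer (cj s B : Set G) := by
            refine ⟨hb, mem_centralizer_iff.2 fun c hc => ?_⟩
            have h2 : c * b * c⁻¹ * b⁻¹ ∈ B ⊓ cj s B := by
              refine ⟨B.mul_mem (hBn c (hcL hc) b hb) (B.inv_mem hb), ?_⟩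
              have e1 : c * b * c⁻¹ * b⁻¹ = c * (b * c⁻¹ * b⁻¹) := by group
              rw [e1]
              exact (cj s B).mul_mem hc (hcn b (hBL hb) _ ((cj s B).inv_mem hc))
            rw [hI, mem_bot, mul_inv_eq_one, mul_inv_eq_iff_eq_mul] at h2
            exact h2
          rw [h0, mem_bot] at h1
          exact hb1 h1
        · obtain ⟨b, hb, hb1⟩ := exists_ne hI
          intro h0
          have h1 : b ∈ B ⊓ centralizer (cj s B : Set G) :=
            ⟨hb.1, mem_centralizer_iff.2 fun c hc => hcab c hc b hb.2⟩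
          rw [h0, mem_bot] at h1
          exact hb1 h1
      · intro l hl b hb
        refine ⟨hBn l hl b hb.1, mem_centralizer_iff.2 fun c hc => ?_⟩
        have hc' : l⁻¹ * c * l⁻¹⁻¹ ∈ cj s B := hcn l⁻¹ (inv_mem hl) c hc
        have h1 := mem_centralizer_iff.1 hb.2 _ hc'
        rw [inv_inv] at h1
        calc c * (l * b * l⁻¹) = l * ((l⁻¹ * c * l) * b) * l⁻¹ := by group
          _ = l * (b * (l⁻¹ * c * l)) * l⁻¹ := by rw [h1]
          _ = l * b * l⁻¹ * c := by group
      · intro x hx k hk hxk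
        refine ⟨hx, mem_centralizer_iff.2 fun c hc => ?_⟩
        have h1 := mem_centralizer_iff.1 hxk.2 c hc
        have h2 : (c * x * c⁻¹) ^ k = x ^ k := by
          rw [conj_pow, h1, mul_inv_cancel_right]
        have h3 := root_unique h habB (hBn c (hcL hc) x hx) hx hk h2
        rw [mul_inv_eq_iff_eq_mul] at h3
        exact h3
    intro b hb c hc
    rw [← hP] at hb
    exact mem_centralizer_iff.1 hb.2 c hc
  let S : Set G := {y | ∃ s ∈ T, s⁻¹ * y * s ∈ B}
  have hS : ∀ y ∈ S, ∀ y' ∈ S, y * y' = y' * y := by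
    rintro y ⟨s, hs, hy⟩ y' ⟨s', hs', hy'⟩
    have h1 := key (s'⁻¹ * s) (mul_mem (inv_mem hs') hs) _ hy' (s'⁻¹ * y * s') (by
      rw [mem_cj]
      have e : (s'⁻¹ * s)⁻¹ * (s'⁻¹ * y * s') * (s'⁻¹ * s) = s⁻¹ * y * s := by group
      rw [e]; exact hy)
    calc y * y' = s' * ((s'⁻¹ * y * s') * (s'⁻¹ * y' * s')) * s'⁻¹ := by group
      _ = s' * ((s'⁻¹ * y' * s') * (s'⁻¹ * y * s')) * s'⁻¹ := by rw [h1]
      _ = y' * y := by group
  have h1 : closure S ≤ centralizer S := by
    rw [closure_le]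
    intro y hy
    exact mem_centralizer_iff.2 fun y' hy' => hS y' hy' y hy
  have h2 : ∀ a ∈ closure S, ∀ b ∈ closure S, a * b = b * a := by
    intro a ha b hb
    have hle : closure S ≤ centralizer (closure S : Set G) := by
      rw [closure_le]
      intro y hy
      exact mem_centralizer_iff.2 fun z hz => (mem_centralizer_iff.1 (h1 hz) y hy).symm
    exact mem_centralizer_iff.1 (hle hb) a ha
  have h3 : closure S = ⊥ := by
    refine no_abelian h (closure S) T hT h2 ?_
    intro t ht a ha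
    have hle : closure S ≤ (closure S).comap (MulAut.conj t).toMonoidHom := by
      rw [closure_le]
      rintro y ⟨s, hs, hy⟩
      refine subset_closure ⟨t * s, mul_mem ht hs, ?_⟩
      simp only [MulEquiv.coe_toMonoidHom, MulAut.conj_apply]
      have e : (t * s)⁻¹ * (t * y * t⁻¹) * (t * s) = s⁻¹ * y * s := by group
      rw [e]; exact hy
    exact hle ha
  obtain ⟨b, hb, hb1⟩ := exists_ne hB1
  have h4 : b ∈ closure S := subset_closure ⟨1, one_mem _, by simpa using hb⟩
  rw [h3, mem_bot] at h4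
  exact hb1 h4

theorem no_finrank_abelian_finite_index (h : Hyp H) (hH : H ≠ ⊤) (L S T A : Subgroup G)
    (hT : T.relIndex H ≠ 0) (hn : ∀ t ∈ T, ∀ a ∈ L, t * a * t⁻¹ ∈ L) (hL : L ≠ ⊥)
    (hS : S.relIndex L ≠ 0) (hab : ∀ a ∈ A, ∀ b ∈ A, a * b = b * a) (hF : FinRank A)
    (hSA : ∀ s ∈ S, ∀ a ∈ A, s * a * s⁻¹ ∈ A) : A = ⊥ := by
  obtain ⟨n, h1, h2⟩ := exists_Pw h hL hS
  by_cases htop : Pw n L = ⊤
  · have hSt : ∀ g : G, g ∈ S := fun g => h1 (by rw [htop]; exact mem_top g)
    rcases h.simple A ⟨fun a ha g => hSA g (hSt g) a ha⟩ with h3 | h3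
    · exact h3
    · exact absurd h3 (comm_ne_top h hab)
  · exact no_finrank_abelian h hH ⟨htop, T, hT, Pw_norm hn⟩ h2 hab hF
      fun l hl a ha => hSA l (h1 hl) a ha

end Pool.Agent.H98.BT
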